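import Pool.Agent.Lib_helper20.FiskGrid

/-!
# Line inequalities and the counting argument
-/

set_option autoImplicit false

namespace Pool.Agent.Lib_helper20.Fisk

open Finset

/-- raw line inequality. -/
theorem line_raw {z : ℝ} (hz : z < 0) (l : List ℝ) (hl : ∀ x ∈ l, 0 < x) (hN : 1 ≤ l.length)
    (s : ℕ → ℕ → ℝ) (hs : Adm z l s) (b : ℕ) (hb : 1 ≤ b) (hbN : b ≤ l.length + 1) :
    (b : ℝ) - 4 ≤ ∑ k ∈ range (l.length + 4 - b + l.length),
      tau s b ((b : ℤ) - 2 - l.length + k) * tau s b ((b : ℤ) - 2 - l.length + k + 1) := by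
  have h := (line_Q hz l hl hN b hb hbN l hl).sum (tau s b) (tau_sign s hs.sgn b)
    (tau_compat hz l s hs b hb)
  have e : (-((l.length + 4 - b : ℕ) : ℝ) + l.length) = (b : ℝ) - 4 := by
    have : ((l.length + 4 - b : ℕ) : ℝ) = (l.length : ℝ) + 4 - b := by
      rw [Nat.cast_sub (by omega)]; push_cast; ring
    rw [this]; ring
  rw [e] at h
  exact h

theorem neg_part {s : ℕ → ℕ → ℝ} (b A : ℕ) :
    ∑ k ∈ range A, tau s b (-(A : ℤ) - 1 + k) * tau s b (-(A : ℤ) - 1 + k + 1)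
      = - ∑ p ∈ range A, s (p + 1) (b - 1) * s p (b - 1) := by
  rw [← sum_range_reflect, ← sum_neg_distrib]
  apply sum_congr rfl
  intro p hp
  have hp' := mem_range.mp hp
  have e1 : -(A : ℤ) - 1 + ((A - 1 - p : ℕ) : ℤ) = -((p + 1 : ℕ) : ℤ) - 1 := by omega
  have e2 : -((p + 1 : ℕ) : ℤ) - 1 + 1 = -(p : ℤ) - 1 := by omega
  rw [e1, e2, tau_neg, tau_neg]
  have e3 : -(p : ℤ) - 1 = -((p + 1 : ℕ) : ℤ) - 1 + 1 := by omega
  rw [e3, zpow_add_one₀ (by norm_num)]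
  have : (-1 : ℝ) ^ (-((p + 1 : ℕ) : ℤ) - 1) * (-1 : ℝ) ^ (-((p + 1 : ℕ) : ℤ) - 1) = 1 := by
    rw [← mul_zpow]; norm_num
  calc _ = ((-1 : ℝ) ^ (-((p + 1 : ℕ) : ℤ) - 1) * (-1 : ℝ) ^ (-((p + 1 : ℕ) : ℤ) - 1)) *
        (- (s (p + 1) (b - 1) * s p (b - 1))) := by ring
    _ = _ := by rw [this]; ring

/-- line `1`. -/
theorem line_one {z : ℝ} (hz : z < 0) (l : List ℝ) (hl : ∀ x ∈ l, 0 < x) (hN : 1 ≤ l.length)
    (s : ℕ → ℕ → ℝ) (hs : Adm z l s) :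
    ∑ p ∈ range l.length, s (p + 1) 0 * s p 0 ≤ ∑ q ∈ range l.length, s 0 q * s 0 (q + 1) := by
  have h := line_raw hz l hl hN s hs 1 le_rfl (by omega)
  set N := l.length with hNdef
  have e : N + 4 - 1 + N = N + (3 + N) := by omega
  rw [e, sum_range_add, sum_range_add] at h
  have e1 : ((1 : ℕ) : ℤ) - 2 - (N : ℤ) = -(N : ℤ) - 1 := by push_cast; ring
  rw [e1, neg_part] at h
  have h3 : ∑ x ∈ range 3, tau s 1 (-(N : ℤ) - 1 + ((N + x : ℕ) : ℤ)) *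
      tau s 1 (-(N : ℤ) - 1 + ((N + x : ℕ) : ℤ) + 1) = -3 := by
    have t0 : tau s 1 (-1) = - s 0 0 := by
      have := tau_neg s 1 0
      simp only [Nat.cast_zero, neg_zero, zero_sub, Nat.sub_self] at this
      rw [this]; norm_num
    have t1 : tau s 1 0 = s 0 0 := tau_zero s 1
    have t2 : tau s 1 1 = - s 0 0 := by
      have := tau_b s 1 le_rfl
      simpa using this
    have t3 : tau s 1 2 = s 0 0 := by
      have := tau_gt s 1 0
      simpa using this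
    rw [sum_range_succ, sum_range_succ, sum_range_succ, sum_range_zero]
    have a0 : -(N : ℤ) - 1 + ((N + 0 : ℕ) : ℤ) = -1 := by push_cast; ring
    have a1 : -(N : ℤ) - 1 + ((N + 1 : ℕ) : ℤ) = 0 := by push_cast; ring
    have a2 : -(N : ℤ) - 1 + ((N + 2 : ℕ) : ℤ) = 1 := by push_cast; ring
    rw [a0, a1, a2]
    norm_num
    rw [t0, t1, t2, t3]
    rcases hs.sgn 0 0 with h0 | h0 <;> rw [h0] <;> norm_num
  have h4 : ∑ x ∈ range N, tau s 1 (-(N : ℤ) - 1 + ((N + (3 + x) : ℕ) : ℤ)) *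
      tau s 1 (-(N : ℤ) - 1 + ((N + (3 + x) : ℕ) : ℤ) + 1) = ∑ q ∈ range N, s 0 q * s 0 (q + 1) := by
    apply sum_congr rfl
    intro q _
    have a0 : -(N : ℤ) - 1 + ((N + (3 + q) : ℕ) : ℤ) = ((1 : ℕ) : ℤ) + 1 + q := by push_cast; ring
    have a1 : ((1 : ℕ) : ℤ) + 1 + q + 1 = ((1 : ℕ) : ℤ) + 1 + ((q + 1 : ℕ) : ℤ) := by push_cast; ring
    rw [a0, a1, tau_gt, tau_gt]
  rw [h3, h4] at h
  norm_num at h
  linarith

/-- line `σ + 2`. -/
theorem line_two {z : ℝ} (hz : z < 0) (l : List ℝ) (hl : ∀ x ∈ l, 0 < x) (hN : 1 ≤ l.length)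
    (s : ℕ → ℕ → ℝ) (hs : Adm z l s) (σ A : ℕ) (hσ : σ + A + 1 = l.length) :
    (σ : ℝ) + s 0 σ * s 0 (σ + 1) - s σ 0 * s (σ + 1) 0 ≤
      - ∑ p ∈ range A, s (p + 1) (σ + 1) * s p (σ + 1)
      + ∑ i ∈ range σ, s i (σ - i) * s (i + 1) (σ - i - 1)
      + ∑ q ∈ range A, s (σ + 1) q * s (σ + 1) (q + 1) := by
  have h := line_raw hz l hl hN s hs (σ + 2) (by omega) (by omega)
  have eN : l.length = σ + A + 1 := hσ.symm
  rw [eN] at h
  have e : σ + A + 1 + 4 - (σ + 2) + (σ + A + 1) = A + (2 + (σ + (2 + A))) := by omega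
  rw [e, sum_range_add, sum_range_add, sum_range_add, sum_range_add] at h
  have e1 : ((σ + 2 : ℕ) : ℤ) - 2 - ((σ + A + 1 : ℕ) : ℤ) = -(A : ℤ) - 1 := by push_cast; ring
  rw [e1, neg_part] at h
  have hb1 : σ + 2 - 1 = σ + 1 := rfl
  have h2 : ∑ x ∈ range 2, tau s (σ + 2) (-(A : ℤ) - 1 + ((A + x : ℕ) : ℤ)) *
      tau s (σ + 2) (-(A : ℤ) - 1 + ((A + x : ℕ) : ℤ) + 1) = - (s 0 σ * s 0 (σ + 1)) - 1 := by
    have t0 : tau s (σ + 2) (-1) = - s 0 (σ + 1) := by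
      have := tau_neg s (σ + 2) 0
      simp only [Nat.cast_zero, neg_zero, zero_sub, hb1] at this
      rw [this]; norm_num
    have t1 : tau s (σ + 2) 0 = s 0 σ := tau_zero s (σ + 2)
    have t2 : tau s (σ + 2) 1 = - s 0 σ := by
      have := tau_mid s (σ + 2) 0 σ (by omega)
      simpa using this
    rw [sum_range_succ, sum_range_succ, sum_range_zero]
    have a0 : -(A : ℤ) - 1 + ((A + 0 : ℕ) : ℤ) = -1 := by push_cast; ring
    have a1 : -(A : ℤ) - 1 + ((A + 1 : ℕ) : ℤ) = 0 := by push_cast; ring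
    rw [a0, a1]
    norm_num
    rw [t0, t1, t2]
    rcases hs.sgn 0 σ with h0 | h0 <;> rw [h0] <;> ring
  have h3 : ∑ x ∈ range σ, tau s (σ + 2) (-(A : ℤ) - 1 + ((A + (2 + x) : ℕ) : ℤ)) *
      tau s (σ + 2) (-(A : ℤ) - 1 + ((A + (2 + x) : ℕ) : ℤ) + 1)
      = ∑ i ∈ range σ, s i (σ - i) * s (i + 1) (σ - i - 1) := by
    apply sum_congr rfl
    intro i hi
    have hi' := mem_range.mp hi
    have a0 : -(A : ℤ) - 1 + ((A + (2 + i) : ℕ) : ℤ) = (i : ℤ) + 1 := by push_cast; ring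
    have a1 : (i : ℤ) + 1 + 1 = ((i + 1 : ℕ) : ℤ) + 1 := by push_cast; ring
    rw [a0, a1, tau_mid s (σ + 2) i (σ - i) (by omega),
      tau_mid s (σ + 2) (i + 1) (σ - i - 1) (by omega)]
    ring
  have h4 : ∑ x ∈ range 2, tau s (σ + 2) (-(A : ℤ) - 1 + ((A + (2 + (σ + x)) : ℕ) : ℤ)) *
      tau s (σ + 2) (-(A : ℤ) - 1 + ((A + (2 + (σ + x)) : ℕ) : ℤ) + 1)
      = s σ 0 * s (σ + 1) 0 - 1 := by
    have t0 : tau s (σ + 2) ((σ : ℤ) + 1) = - s σ 0 := tau_mid s (σ + 2) σ 0 (by omega)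
    have t1 : tau s (σ + 2) ((σ : ℤ) + 2) = - s (σ + 1) 0 := by
      have := tau_b s (σ + 2) (by omega)
      rw [hb1] at this
      rw [← this]; congr 1
    have t2 : tau s (σ + 2) ((σ : ℤ) + 3) = s (σ + 1) 0 := by
      have := tau_gt s (σ + 2) 0
      rw [hb1] at this
      rw [← this]; congr 1
    rw [sum_range_succ, sum_range_succ, sum_range_zero]
    have a0 : -(A : ℤ) - 1 + ((A + (2 + (σ + 0)) : ℕ) : ℤ) = (σ : ℤ) + 1 := by push_cast; ring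
    have a1 : -(A : ℤ) - 1 + ((A + (2 + (σ + 1)) : ℕ) : ℤ) = (σ : ℤ) + 2 := by push_cast; ring
    have a2 : (σ : ℤ) + 1 + 1 = (σ : ℤ) + 2 := by ring
    have a3 : (σ : ℤ) + 2 + 1 = (σ : ℤ) + 3 := by ring
    rw [a0, a1, a2, a3, t0, t1, t2]
    rcases hs.sgn (σ + 1) 0 with h0 | h0 <;> rw [h0] <;> ring
  have h5 : ∑ x ∈ range A, tau s (σ + 2) (-(A : ℤ) - 1 + ((A + (2 + (σ + (2 + x))) : ℕ) : ℤ)) *
      tau s (σ + 2) (-(A : ℤ) - 1 + ((A + (2 + (σ + (2 + x))) : ℕ) : ℤ) + 1)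
      = ∑ q ∈ range A, s (σ + 1) q * s (σ + 1) (q + 1) := by
    apply sum_congr rfl
    intro q _
    have a0 : -(A : ℤ) - 1 + ((A + (2 + (σ + (2 + q))) : ℕ) : ℤ) = ((σ + 2 : ℕ) : ℤ) + 1 + q := by
      push_cast; ring
    have a1 : ((σ + 2 : ℕ) : ℤ) + 1 + q + 1 = ((σ + 2 : ℕ) : ℤ) + 1 + ((q + 1 : ℕ) : ℤ) := by
      push_cast; ring
    rw [a0, a1, tau_gt, tau_gt, hb1]
  rw [h2, h3, h4, h5, hb1] at h
  push_cast at h
  linarith

theorem tri1 (g : ℕ → ℕ → ℝ) (N : ℕ) :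
    ∑ σ ∈ range N, ∑ p ∈ range (N - 1 - σ), g σ p
      = ∑ σ ∈ range N, ∑ i ∈ range σ, g i (σ - i - 1) := by
  induction N with
  | zero => simp
  | succ N ih =>
    rw [sum_range_succ, sum_range_succ (fun σ => ∑ i ∈ range σ, g i (σ - i - 1)), ← ih]
    have e0 : N + 1 - 1 - N = 0 := by omega
    rw [e0, sum_range_zero, add_zero, ← sum_add_distrib]
    apply sum_congr rfl
    intro σ hσ
    have hσ' := mem_range.mp hσ
    have e1 : N + 1 - 1 - σ = N - 1 - σ + 1 := by omega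
    have e2 : N - σ - 1 = N - 1 - σ := by omega
    rw [e1, sum_range_succ, e2]

theorem tri2 (g : ℕ → ℕ → ℝ) (N : ℕ) :
    ∑ σ ∈ range N, ∑ p ∈ range (N - 1 - σ), g p σ
      = ∑ σ ∈ range N, ∑ i ∈ range σ, g i (σ - i - 1) := by
  rw [tri1 (fun a b => g b a)]
  apply sum_congr rfl
  intro σ _
  rw [← sum_range_reflect (fun i => g i (σ - i - 1))]
  apply sum_congr rfl
  intro i hi
  have hi' := mem_range.mp hi
  have e1 : σ - (σ - 1 - i) - 1 = i := by omega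
  have e2 : σ - i - 1 = σ - 1 - i := by omega
  rw [e1, e2]

/-- **The key counting identity**. -/
theorem count_eq {z : ℝ} (hz : z < 0) (l : List ℝ) (hl : ∀ x ∈ l, 0 < x) (hN : 1 ≤ l.length)
    (s : ℕ → ℕ → ℝ) (hs : Adm z l s) :
    ∑ q ∈ range l.length, s 0 q * s 0 (q + 1) = ∑ p ∈ range l.length, s (p + 1) 0 * s p 0 := by
  apply le_antisymm _ (line_one hz l hl hN s hs)
  set N := l.length with hNdef
  have h2 : ∑ σ ∈ range N, ((σ : ℝ) + s 0 σ * s 0 (σ + 1) - s σ 0 * s (σ + 1) 0) ≤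
      ∑ σ ∈ range N, (- ∑ p ∈ range (N - 1 - σ), s (p + 1) (σ + 1) * s p (σ + 1)
      + ∑ i ∈ range σ, s i (σ - i) * s (i + 1) (σ - i - 1)
      + ∑ q ∈ range (N - 1 - σ), s (σ + 1) q * s (σ + 1) (q + 1)) := by
    apply sum_le_sum
    intro σ hσ
    have hσ' := mem_range.mp hσ
    exact line_two hz l hl hN s hs σ (N - 1 - σ) (by omega)
  have h3 : ∑ σ ∈ range N, (- ∑ p ∈ range (N - 1 - σ), s (p + 1) (σ + 1) * s p (σ + 1)
      + ∑ i ∈ range σ, s i (σ - i) * s (i + 1) (σ - i - 1)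
      + ∑ q ∈ range (N - 1 - σ), s (σ + 1) q * s (σ + 1) (q + 1))
      = ∑ σ ∈ range N, ∑ i ∈ range σ,
        (- (s (i + 1) (σ - i - 1 + 1) * s i (σ - i - 1 + 1))
          + s i (σ - i - 1 + 1) * s (i + 1) (σ - i - 1)
          + s (i + 1) (σ - i - 1) * s (i + 1) (σ - i - 1 + 1)) := by
    rw [sum_add_distrib, sum_add_distrib, sum_neg_distrib,
      tri2 (fun p σ => s (p + 1) (σ + 1) * s p (σ + 1)) N,
      tri1 (fun σ q => s (σ + 1) q * s (σ + 1) (q + 1)) N,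
      ← sum_neg_distrib, ← sum_add_distrib, ← sum_add_distrib]
    apply sum_congr rfl
    intro σ _
    rw [← sum_neg_distrib, ← sum_add_distrib, ← sum_add_distrib]
    apply sum_congr rfl
    intro i hi
    have hi' := mem_range.mp hi
    have e1 : σ - i = σ - i - 1 + 1 := by omega
    rw [← e1]
  have h4 : ∑ σ ∈ range N, ∑ i ∈ range σ,
        (- (s (i + 1) (σ - i - 1 + 1) * s i (σ - i - 1 + 1))
          + s i (σ - i - 1 + 1) * s (i + 1) (σ - i - 1)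
          + s (i + 1) (σ - i - 1) * s (i + 1) (σ - i - 1 + 1)) ≤ ∑ σ ∈ range N, (σ : ℝ) := by
    apply sum_le_sum
    intro σ _
    calc _ ≤ ∑ i ∈ range σ, (1 : ℝ) := by
          apply sum_le_sum
          intro i _
          rcases hs.sgn (i + 1) (σ - i - 1 + 1) with h1 | h1 <;>
            rcases hs.sgn i (σ - i - 1 + 1) with h2 | h2 <;>
            rcases hs.sgn (i + 1) (σ - i - 1) with h3 | h3 <;> rw [h1, h2, h3] <;> norm_num
      _ = (σ : ℝ) := by simp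
  have h5 : ∑ σ ∈ range N, ((σ : ℝ) + s 0 σ * s 0 (σ + 1) - s σ 0 * s (σ + 1) 0)
      = ∑ σ ∈ range N, (σ : ℝ) + ∑ σ ∈ range N, s 0 σ * s 0 (σ + 1)
        - ∑ σ ∈ range N, s (σ + 1) 0 * s σ 0 := by
    rw [sum_sub_distrib, sum_add_distrib]
    congr 1
    apply sum_congr rfl
    intro σ _
    ring
  rw [h5, h3] at h2
  linarith

end Pool.Agent.Lib_helper20.Fisk
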