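import Pool.Agent.Lib_helper20.FiskMain

/-!
# Reduction of the general statement
-/

set_option autoImplicit false

namespace Pool.Agent.Lib_helper20.Fisk

open Finset Polynomial

/-- factorization of a polynomial all of whose zeros are real and nonpositive. -/
theorem exists_factor (n : ℕ) : ∀ p : ℝ[X], p.natDegree = n → p ≠ 0 →
    (∀ z : ℂ, aeval z p = 0 → z.im = 0) → (∀ x : ℝ, 0 < x → p.eval x ≠ 0) →
    ∃ (c : ℝ) (s : ℕ) (l : List ℝ), c ≠ 0 ∧ (∀ x ∈ l, 0 < x) ∧
      p = C c * X ^ s * (l.map (fun x => 1 + C x * X)).prod := by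
  induction n with
  | zero =>
    intro p hd hp _ _
    refine ⟨p.coeff 0, 0, [], ?_, by simp, ?_⟩
    · intro h
      apply hp
      rw [eq_C_of_natDegree_eq_zero hd, h, C_0]
    · simp only [pow_zero, mul_one, List.map_nil, List.prod_nil]
      exact eq_C_of_natDegree_eq_zero hd
  | succ n ih =>
    intro p hd hp hreal hpos
    -- a complex root
    have hdeg : (p.map (algebraMap ℝ ℂ)).degree ≠ 0 := by
      rw [degree_map]
      intro h
      have := natDegree_eq_of_degree_eq_some (n := 0) (by simpa using h)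
      omega
    obtain ⟨z, hz⟩ := IsAlgClosed.exists_root (p.map (algebraMap ℝ ℂ)) hdeg
    have hz' : aeval z p = 0 := by
      rw [IsRoot, eval_map_algebraMap] at hz
      exact hz
    have him := hreal z hz'
    obtain ⟨x, hx⟩ : ∃ x : ℝ, z = (x : ℂ) := ⟨z.re, by
      apply Complex.ext <;> simp [him]⟩
    have hroot : p.IsRoot x := by
      rw [IsRoot]
      have h1 : aeval (x : ℂ) p = ((p.eval x : ℝ) : ℂ) := by
        have := aeval_algebraMap_apply ℂ x p
        simpa [coe_aeval_eq_eval] using this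
      rw [hx, h1] at hz'
      exact_mod_cast hz'
    obtain ⟨q, hq⟩ := dvd_iff_isRoot.mpr hroot
    have hq0 : q ≠ 0 := by
      intro h; rw [h, mul_zero] at hq; exact hp hq
    have hqd : q.natDegree = n := by
      have := congrArg natDegree hq
      rw [natDegree_mul (X_sub_C_ne_zero x) hq0, natDegree_X_sub_C] at this
      omega
    have hqreal : ∀ z : ℂ, aeval z q = 0 → z.im = 0 := by
      intro w hw
      apply hreal w
      rw [hq, map_mul, hw, mul_zero]
    have hqpos : ∀ y : ℝ, 0 < y → q.eval y ≠ 0 := by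
      intro y hy h
      apply hpos y hy
      rw [hq, eval_mul, h, mul_zero]
    have hxle : x ≤ 0 := by
      by_contra hcon
      exact hpos x (not_le.mp hcon) hroot
    obtain ⟨c, s, l, hc, hl, hfac⟩ := ih q hqd hq0 hqreal hqpos
    rcases hxle.eq_or_lt with h | h
    · refine ⟨c, s + 1, l, hc, hl, ?_⟩
      rw [hq, h, C_0, sub_zero, hfac]
      ring
    · refine ⟨c * (-x), s, (-x)⁻¹ :: l, mul_ne_zero hc (by linarith), ?_, ?_⟩
      · intro y hy
        rcases List.mem_cons.mp hy with h1 | h1
        · rw [h1]; exact inv_pos.mpr (by linarith)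
        · exact hl y h1
      · rw [hq, hfac, List.map_cons, List.prod_cons]
        have hx0 : (-x) ≠ 0 := by linarith
        have e : (X - C x : ℝ[X]) = C (-x) * (1 + C (-x)⁻¹ * X) := by
          rw [mul_add, mul_one, ← mul_assoc, ← C_mul, mul_inv_cancel₀ hx0, C_1, one_mul, C_neg]
          ring
        rw [e, C_mul]
        ring

/-- coefficients of the product. -/
theorem coeff_prod (l : List ℝ) : ∀ k : ℕ,
    ((l.map (fun x => (1 + C x * X : ℝ[X]))).prod).coeff k = Fc l k := by
  induction l with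
  | nil =>
    intro k
    simp only [List.map_nil, List.prod_nil, Fc, coeff_one]
    norm_cast
  | cons x l ih =>
    intro k
    rw [List.map_cons, List.prod_cons, add_mul, one_mul, coeff_add, ih k, mul_assoc, coeff_C_mul]
    simp only [Fc]
    congr 1
    congr 1
    cases k with
    | zero =>
      rw [coeff_X_mul_zero, Fc_neg l _ (by simp)]
    | succ k =>
      rw [coeff_X_mul, ih k]
      congr 1
      push_cast; ring

theorem natDegree_prod_list (l : List ℝ) (hl : ∀ x ∈ l, 0 < x) :
    ((l.map (fun x => (1 + C x * X : ℝ[X]))).prod).natDegree = l.length := by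
  apply le_antisymm
  · rw [natDegree_le_iff_coeff_eq_zero]
    intro m hm
    rw [coeff_prod, Fc_gt l m (by exact_mod_cast hm)]
  · apply le_natDegree_of_ne_zero
    rw [coeff_prod]
    exact (Fc_pos l hl l.length (by omega) le_rfl).ne'

theorem coeff_general (c : ℝ) (s : ℕ) (l : List ℝ) (k : ℕ) :
    (C c * X ^ s * (l.map (fun x => (1 + C x * X : ℝ[X]))).prod).coeff k
      = c * Fc l ((k : ℤ) - s) := by
  rw [mul_assoc, coeff_C_mul, mul_comm (X ^ s), coeff_mul_X_pow']
  congr 1
  split_ifs with h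
  · rw [coeff_prod, Nat.cast_sub h]
  · rw [Fc_neg l _ (by omega)]

theorem nonneg_mul (p q : ℝ[X]) (hp : ∀ k, 0 ≤ p.coeff k) (hq : ∀ k, 0 ≤ q.coeff k) :
    ∀ k, 0 ≤ (p * q).coeff k := by
  intro k
  rw [coeff_mul]
  exact sum_nonneg (fun x _ => mul_nonneg (hp _) (hq _))

theorem nonneg_prod (ζ : ℕ → ℝ) (n : ℕ) (h : ∀ i < n, ζ i < 0) :
    ∀ k, 0 ≤ (∏ i ∈ range n, (X - C (ζ i) : ℝ[X])).coeff k := by
  induction n with
  | zero =>
    intro k
    rw [range_zero, prod_empty, coeff_one]
    split_ifs <;> norm_num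
  | succ n ih =>
    rw [prod_range_succ]
    apply nonneg_mul _ _ (ih (fun i hi => h i (by omega)))
    intro k
    rw [coeff_sub, coeff_X, coeff_C]
    have := h n (by omega)
    split_ifs <;> linarith

/-- The main theorem, in the form of the frozen statement. -/
theorem main :
    ∀ p : Polynomial ℝ, (∀ k : ℕ, 0 ≤ p.coeff k) →
      (∀ z : ℂ, Polynomial.aeval z p = 0 → z.im = 0) →
      ∀ q : Polynomial ℝ,
        q = ∑ k ∈ Finset.range (p.natDegree + 1),
          Polynomial.C (Matrix.det (Matrix.of (fun i j : Fin 3 =>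
            if 0 ≤ (k : ℤ) + ((j : ℕ) : ℤ) - ((i : ℕ) : ℤ)
            then p.coeff ((k : ℤ) + ((j : ℕ) : ℤ) - ((i : ℕ) : ℤ)).toNat
            else (0 : ℝ)))) * Polynomial.X ^ k →
        (∀ k : ℕ, 0 ≤ q.coeff k) ∧ (∀ z : ℂ, Polynomial.aeval z q = 0 → z.im = 0) := by
  intro p hnn hreal q hq
  have hp0 : p ≠ 0 := by
    intro h
    have := hreal Complex.I (by rw [h, map_zero])
    simp at this
  have hpos : ∀ x : ℝ, 0 < x → p.eval x ≠ 0 := by
    intro x hx h
    rw [eval_eq_sum_range] at h
    have h1 := (sum_eq_zero_iff_of_nonneg (fun i _ => mul_nonneg (hnn i) (pow_nonneg hx.le i))).mp h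
      p.natDegree (mem_range.mpr (Nat.lt_succ_self _))
    rcases mul_eq_zero.mp h1 with h2 | h2
    · exact hp0 (leadingCoeff_eq_zero.mp h2)
    · exact (pow_pos hx _).ne' h2
  obtain ⟨c, s, l, hc, hl, hfac⟩ := exists_factor p.natDegree p rfl hp0 hreal hpos
  have hcoef : ∀ k : ℕ, p.coeff k = c * Fc l ((k : ℤ) - s) := by
    intro k
    conv_lhs => rw [hfac]
    exact coeff_general c s l k
  have hcpos : 0 < c := by
    have h1 := hnn s
    rw [hcoef s, sub_self] at h1
    have h2 := Fc_pos l hl 0 le_rfl (by omega)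
    rcases lt_or_gt_of_ne hc with h | h
    · exfalso
      have := mul_neg_of_neg_of_pos h h2
      linarith
    · exact h
  have hdeg : p.natDegree = s + l.length := by
    rw [hfac, mul_assoc, natDegree_C_mul hc, natDegree_mul (pow_ne_zero _ X_ne_zero) (by
      intro h
      have := natDegree_prod_list l hl
      have h2 := coeff_prod l 0
      rw [h] at h2
      simp only [coeff_zero, Nat.cast_zero] at h2
      exact (Fc_pos l hl 0 le_rfl (by omega)).ne h2),
      natDegree_X_pow, natDegree_prod_list l hl]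
  -- matrix entries
  have hentry : ∀ (k : ℕ) (i j : Fin 3),
      (if 0 ≤ (k : ℤ) + ((j : ℕ) : ℤ) - ((i : ℕ) : ℤ)
            then p.coeff ((k : ℤ) + ((j : ℕ) : ℤ) - ((i : ℕ) : ℤ)).toNat
            else (0 : ℝ)) = c * Fc l ((k : ℤ) - s + ((j : ℕ) : ℤ) - ((i : ℕ) : ℤ)) := by
    intro k i j
    split_ifs with h
    · rw [hcoef, Int.toNat_of_nonneg h]
      congr 2; ring
    · rw [Fc_neg l _ (by omega), mul_zero]
  have hdet : ∀ k : ℕ, Matrix.det (Matrix.of (fun i j : Fin 3 =>
            if 0 ≤ (k : ℤ) + ((j : ℕ) : ℤ) - ((i : ℕ) : ℤ)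
            then p.coeff ((k : ℤ) + ((j : ℕ) : ℤ) - ((i : ℕ) : ℤ)).toNat
            else (0 : ℝ))) = c ^ 3 * D3 (Fc l) (sh 1 (Fc l)) (sh 2 (Fc l)) ((k : ℤ) - s) := by
    intro k
    simp only [hentry]
    rw [Matrix.det_fin_three]
    simp only [Matrix.of_apply, Fin.val_zero, Fin.val_one, Fin.val_two, D3, sh]
    push_cast
    have a0 : (k : ℤ) - s + 0 - 0 = k - s := by ring
    have a1 : (k : ℤ) - s + 1 - 0 = k - s + 1 := by ring
    have a2 : (k : ℤ) - s + 2 - 0 = k - s + 2 := by ring
    have a3 : (k : ℤ) - s + 0 - 1 = k - s - 1 := by ring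
    have a4 : (k : ℤ) - s + 0 - 2 = k - s - 2 := by ring
    rw [a0, a1, a2, a3, a4]
    ring
  have hqW : q = C (c ^ 3) * X ^ s * W l 0 := by
    rw [hq, hdeg]
    have e : s + l.length + 1 = s + (l.length + 1) := by ring
    rw [e, sum_range_add]
    have z1 : ∑ k ∈ range s, C (Matrix.det (Matrix.of (fun i j : Fin 3 =>
            if 0 ≤ (k : ℤ) + ((j : ℕ) : ℤ) - ((i : ℕ) : ℤ)
            then p.coeff ((k : ℤ) + ((j : ℕ) : ℤ) - ((i : ℕ) : ℤ)).toNat
            else (0 : ℝ)))) * (X : ℝ[X]) ^ k = 0 := by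
      apply sum_eq_zero
      intro k hk
      have hk' := mem_range.mp hk
      rw [hdet]
      have : D3 (Fc l) (sh 1 (Fc l)) (sh 2 (Fc l)) ((k : ℤ) - s) = 0 := by
        simp only [D3, sh]
        rw [Fc_neg l ((k : ℤ) - s - 2) (by omega), Fc_neg l ((k : ℤ) - s + 1 - 2) (by omega),
          Fc_neg l ((k : ℤ) - s + 2 - 2) (by omega)]
        ring
      rw [this, mul_zero, C_0, zero_mul]
    rw [z1, zero_add]
    unfold W
    rw [Nat.sub_zero, mul_sum]
    apply sum_congr rfl
    intro m _
    rw [hdet]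
    have e1 : ((s + m : ℕ) : ℤ) - s = ((0 : ℕ) : ℤ) + m := by push_cast; ring
    have e2 : ((0 : ℕ) : ℤ) + 2 = 2 := by norm_num
    rw [e1, e2, C_mul, pow_add]
    ring
  obtain ⟨a, ζ, ha, hζ, hW⟩ := fisk_W l hl
  constructor
  · rw [hqW, hW]
    apply nonneg_mul
    · intro k
      rw [coeff_C_mul_X_pow]
      split_ifs
      · positivity
      · exact le_rfl
    · apply nonneg_mul
      · intro k
        rw [coeff_C]
        split_ifs
        · exact ha.le
        · exact le_rfl
      · exact nonneg_prod ζ _ hζ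
  · intro z hz
    rw [hqW, hW] at hz
    simp only [map_mul, map_pow, aeval_C, aeval_X, map_prod, map_sub] at hz
    rcases mul_eq_zero.mp hz with h | h
    · rcases mul_eq_zero.mp h with h' | h'
      · exfalso
        have : (c : ℂ) ^ 3 = 0 := by simpa using h'
        have h2 := pow_eq_zero_iff (n := 3) (by norm_num) |>.mp this
        exact hc (by exact_mod_cast h2)
      · have : z = 0 := by
          by_contra hne
          exact pow_ne_zero s hne h'
        rw [this]; simp
    · rcases mul_eq_zero.mp h with h' | h'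
      · exfalso
        have h2 : (a : ℂ) = 0 := by simpa using h'
        exact ha.ne' (by exact_mod_cast h2)
      · rw [prod_eq_zero_iff] at h'
        obtain ⟨i, _, hi⟩ := h'
        have : z = ((ζ i : ℝ) : ℂ) := by
          have := sub_eq_zero.mp hi
          simpa using this
        rw [this]; simp

end Pool.Agent.Lib_helper20.Fisk
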