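import Pool.Agent.Lib_helper20.FiskLine

/-!
# The triangular grid
-/

set_option autoImplicit false

namespace Pool.Agent.Lib_helper20.Fisk

open Finset

/-- `P_{p,q}`. -/
noncomputable def PP (z : ℝ) (l : List ℝ) (p q : ℕ) : ℝ :=
  Om z (Fc l) (sh ((p : ℤ) + 1) (Fc l)) (sh ((p : ℤ) + q + 2) (Fc l))

/-- admissible sign assignments on the grid. -/
structure Adm (z : ℝ) (l : List ℝ) (s : ℕ → ℕ → ℝ) : Prop where
  sgn : ∀ p q, s p q = 1 ∨ s p q = -1
  nn : ∀ p q, 0 ≤ s p q * PP z l p q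

/-- the sign sequence along the line `b`. -/
noncomputable def tau (s : ℕ → ℕ → ℝ) (b : ℕ) (n : ℤ) : ℝ :=
  if n < 0 then (-1 : ℝ) ^ n * s (-n - 1).toNat (b - 1)
  else if n = 0 then s 0 (b - 2)
  else if n < b then - s (n - 1).toNat ((b : ℤ) - 1 - n).toNat
  else if n = b then - s (b - 1) 0
  else s (b - 1) (n - b - 1).toNat

theorem tau_neg (s : ℕ → ℕ → ℝ) (b : ℕ) (p : ℕ) :
    tau s b (-(p : ℤ) - 1) = (-1 : ℝ) ^ (-(p : ℤ) - 1) * s p (b - 1) := by
  unfold tau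
  rw [if_pos (by omega)]
  have : (-(-(p : ℤ) - 1) - 1).toNat = p := by omega
  rw [this]

theorem tau_zero (s : ℕ → ℕ → ℝ) (b : ℕ) : tau s b 0 = s 0 (b - 2) := by
  unfold tau; simp

theorem tau_mid (s : ℕ → ℕ → ℝ) (b : ℕ) (i j : ℕ) (h : i + j + 2 = b) :
    tau s b ((i : ℤ) + 1) = - s i j := by
  unfold tau
  rw [if_neg (by omega), if_neg (by omega), if_pos (by omega)]
  have e1 : ((i : ℤ) + 1 - 1).toNat = i := by omega
  have e2 : ((b : ℤ) - 1 - ((i : ℤ) + 1)).toNat = j := by omega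
  rw [e1, e2]

theorem tau_b (s : ℕ → ℕ → ℝ) (b : ℕ) (hb : 1 ≤ b) : tau s b b = - s (b - 1) 0 := by
  unfold tau
  rw [if_neg (by omega), if_neg (by omega), if_neg (by omega), if_pos rfl]

theorem tau_gt (s : ℕ → ℕ → ℝ) (b : ℕ) (j : ℕ) : tau s b ((b : ℤ) + 1 + j) = s (b - 1) j := by
  unfold tau
  rw [if_neg (by omega), if_neg (by omega), if_neg (by omega), if_neg (by omega)]
  have e1 : ((b : ℤ) + 1 + j - b - 1).toNat = j := by omega
  rw [e1]

theorem tau_sign (s : ℕ → ℕ → ℝ) (hs : ∀ p q, s p q = 1 ∨ s p q = -1) (b : ℕ) :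
    IsSign (tau s b) := by
  intro n
  unfold tau
  split_ifs
  · rcases Int.even_or_odd n with he | ho
    · rw [he.neg_one_zpow, one_mul]; exact hs _ _
    · rw [ho.neg_one_zpow]
      rcases hs (-n - 1).toNat (b - 1) with h | h <;> rw [h] <;> norm_num
  · exact hs _ _
  · rcases hs (n - 1).toNat ((b : ℤ) - 1 - n).toNat with h | h <;> rw [h] <;> norm_num
  · rcases hs (b - 1) 0 with h | h <;> rw [h] <;> norm_num
  · exact hs _ _

theorem tau_compat {z : ℝ} (hz : z < 0) (l : List ℝ) (s : ℕ → ℕ → ℝ) (hs : Adm z l s)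
    (b : ℕ) (hb : 1 ≤ b) :
    Compat (tau s b) (fun n => Om z (Fc l) (sh b (Fc l)) (sh n (Fc l))) := by
  intro n
  show 0 ≤ tau s b n * Om z (Fc l) (sh b (Fc l)) (sh n (Fc l))
  rcases lt_trichotomy n 0 with hn | hn | hn
  · obtain ⟨p, hp⟩ : ∃ p : ℕ, n = -(p : ℤ) - 1 := ⟨(-n - 1).toNat, by omega⟩
    subst hp
    rw [tau_neg]
    have e : Om z (Fc l) (sh b (Fc l)) (sh (-(p : ℤ) - 1) (Fc l)) =
        z ^ (-(p : ℤ) - 1) * PP z l p (b - 1) := by
      rw [Om_cyc, PP, ← Om_shift hz.ne, sh_sh, sh_sh]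
      congr 1
      · have : -(p : ℤ) - 1 + ((p : ℤ) + 1) = 0 := by ring
        rw [this, sh_zero]
      · congr 1
        omega
    rw [e]
    have h1 := hs.nn p (b - 1)
    have h2 : 0 < (-z) ^ (-(p : ℤ) - 1) := zpow_pos (by linarith) _
    have h3 := neg_one_zpow_mul (z := z) (-(p : ℤ) - 1)
    calc 0 ≤ (-z) ^ (-(p : ℤ) - 1) * (s p (b - 1) * PP z l p (b - 1)) := mul_nonneg h2.le h1
      _ = _ := by rw [← h3]; ring
  · subst hn
    rw [sh_zero, Om_self13, mul_zero]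
  · rcases lt_trichotomy n b with hnb | hnb | hnb
    · obtain ⟨i, hi⟩ : ∃ i : ℕ, n = (i : ℤ) + 1 := ⟨(n - 1).toNat, by omega⟩
      obtain ⟨j, hj⟩ : ∃ j : ℕ, i + j + 2 = b := ⟨b - 2 - i, by omega⟩
      subst hi
      rw [tau_mid s b i j hj, Om_swap23]
      have e : Om z (Fc l) (sh ((i : ℤ) + 1) (Fc l)) (sh b (Fc l)) = PP z l i j := by
        rw [PP]; congr 2; omega
      rw [e]
      have := hs.nn i j
      linarith
    · subst hnb
      rw [Om_self23, mul_zero]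
    · obtain ⟨j, hj⟩ : ∃ j : ℕ, n = (b : ℤ) + 1 + j := ⟨(n - b - 1).toNat, by omega⟩
      subst hj
      rw [tau_gt]
      have e : Om z (Fc l) (sh b (Fc l)) (sh ((b : ℤ) + 1 + j) (Fc l)) = PP z l (b - 1) j := by
        rw [PP]
        have e1 : ((b - 1 : ℕ) : ℤ) + 1 = b := by omega
        have e2 : ((b - 1 : ℕ) : ℤ) + j + 2 = (b : ℤ) + 1 + j := by omega
        rw [e1, e2]
      rw [e]
      exact hs.nn _ _

end Pool.Agent.Lib_helper20.Fisk
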