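import Pool.Agent.Lib_helper20.FiskOm

/-!
# Sign changes along a line
-/

set_option autoImplicit false

namespace Pool.Agent.Lib_helper20.Fisk

open Finset

theorem Mn_zero_left (l : List ℝ) (b p q : ℤ) (hpq : p ≤ q) (h : q < b) : Mn l b p q = 0 := by
  unfold Mn
  rw [Fc_neg l (q - b) (by omega), Fc_neg l (p - b) (by omega)]; ring

theorem Mn_zero_right (l : List ℝ) (b p q : ℤ) (hpq : p ≤ q) (h : (l.length : ℤ) < p) :
    Mn l b p q = 0 := by
  unfold Mn
  rw [Fc_gt l p h, Fc_gt l q (by omega)]; ring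

theorem neg_one_zpow_mul {z : ℝ} (n : ℤ) : (-1 : ℝ) ^ n * z ^ n = (-z) ^ n := by
  rw [← mul_zpow]; congr 1; ring

theorem neg_one_zpow_mul1 {z : ℝ} (n : ℤ) : (-1 : ℝ) ^ n * z ^ (n - 1) = -(-z) ^ (n - 1) := by
  have : (-1 : ℝ) ^ n = (-1 : ℝ) ^ (n - 1) * (-1) := by
    rw [← zpow_add_one₀ (by norm_num)]; congr 1; ring
  rw [this, ← neg_one_zpow_mul (z := z) (n - 1)]; ring

theorem neg_one_zpow_mul2 {z : ℝ} (n : ℤ) : (-1 : ℝ) ^ n * z ^ (n - 2) = (-z) ^ (n - 2) := by
  have : (-1 : ℝ) ^ n = (-1 : ℝ) ^ (n - 2) := by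
    have h : n = n - 2 + 2 := by ring
    conv_lhs => rw [h]
    rw [zpow_add₀ (by norm_num)]
    norm_num
  rw [this, ← neg_one_zpow_mul (z := z) (n - 2)]

/-- the bottom sequence strictly alternates. -/
theorem bottom_pos {z : ℝ} (hz : z < 0) (l : List ℝ) (hl : ∀ x ∈ l, 0 < x) (hN : 1 ≤ l.length)
    (b : ℤ) (hb : 1 ≤ b) (hbN : b ≤ l.length + 1) (n : ℤ) (h1 : b - 2 ≤ n)
    (h2 : n ≤ l.length + 2) :
    0 < (-1 : ℝ) ^ n * Om z (Fc l) (sh b (Fc l)) (sh n (Fc [])) := by
  rw [Om_nil]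
  have hy : 0 < -z := by linarith
  have e : (-1 : ℝ) ^ n * (z ^ n * Mn l b (n + 1) (n + 2) - z ^ (n - 1) * Mn l b (n - 1) (n + 1)
        + z ^ (n - 2) * Mn l b (n - 2) (n - 1)) =
      (-z) ^ n * Mn l b (n + 1) (n + 2) + (-z) ^ (n - 1) * Mn l b (n - 1) (n + 1)
        + (-z) ^ (n - 2) * Mn l b (n - 2) (n - 1) := by
    rw [← neg_one_zpow_mul (z := z) n, ← neg_one_zpow_mul2 (z := z) n]
    have := neg_one_zpow_mul1 (z := z) n
    have h' : (-z) ^ (n - 1) = - ((-1 : ℝ) ^ n * z ^ (n - 1)) := by rw [this]; ring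
    rw [h']
    ring
  rw [e]
  have p1 : 0 < (-z) ^ n := zpow_pos hy n
  have p2 : 0 < (-z) ^ (n - 1) := zpow_pos hy _
  have p3 : 0 < (-z) ^ (n - 2) := zpow_pos hy _
  have n1 := Mn_nonneg l hl b hb (n + 1) (n + 2) (by omega)
  have n2 := Mn_nonneg l hl b hb (n - 1) (n + 1) (by omega)
  have n3 := Mn_nonneg l hl b hb (n - 2) (n - 1) (by omega)
  by_cases c1 : n + 1 ≤ l.length
  · have := Mn_pos l hl b hb (n + 1) (n + 2) (by omega) (by omega) (by omega) (by omega) (by omega)
    positivity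
  · by_cases c2 : n - 1 ≤ l.length ∧ n + 1 ≤ l.length + b
    · have := Mn_pos l hl b hb (n - 1) (n + 1) (by omega) (by omega) (by omega) (by omega)
        (by omega)
      positivity
    · have := Mn_pos l hl b hb (n - 2) (n - 1) (by omega) (by omega) (by omega) (by omega)
        (by omega)
      positivity

theorem bottom_left {z : ℝ} (l : List ℝ) (b : ℤ) (n : ℤ) (h1 : n < b - 2) :
    Om z (Fc l) (sh b (Fc l)) (sh n (Fc [])) = 0 := by
  rw [Om_nil, Mn_zero_left l b _ _ (by omega) (by omega), Mn_zero_left l b _ _ (by omega) (by omega),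
    Mn_zero_left l b _ _ (by omega) (by omega)]
  ring

theorem bottom_right {z : ℝ} (l : List ℝ) (b : ℤ) (n : ℤ) (h1 : (l.length : ℤ) + 2 < n) :
    Om z (Fc l) (sh b (Fc l)) (sh n (Fc [])) = 0 := by
  rw [Om_nil, Mn_zero_right l b _ _ (by omega) (by omega),
    Mn_zero_right l b _ _ (by omega) (by omega), Mn_zero_right l b _ _ (by omega) (by omega)]
  ring

/-- the line property, for an arbitrary third polynomial. -/
theorem line_Q {z : ℝ} (hz : z < 0) (l : List ℝ) (hl : ∀ x ∈ l, 0 < x) (hN : 1 ≤ l.length)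
    (b : ℕ) (hb : 1 ≤ b) (hbN : b ≤ l.length + 1) (l' : List ℝ) (hl' : ∀ x ∈ l', 0 < x) :
    Q (fun n => Om z (Fc l) (sh b (Fc l)) (sh n (Fc l'))) ((b : ℤ) - 2 - l'.length)
      (l.length + 4 - b + l'.length) (-((l.length + 4 - b : ℕ) : ℝ) + l'.length) := by
  induction l' with
  | nil =>
    simp only [List.length_nil, Nat.cast_zero, sub_zero, add_zero]
    apply Q.base
    · intro n h1 h2
      apply bottom_pos hz l hl hN b (by omega) (by omega) n h1
      have : ((l.length + 4 - b : ℕ) : ℤ) = l.length + 4 - b := by omega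
      rw [this] at h2
      linarith
    · intro n hn
      exact bottom_left l b n hn
    · intro n hn
      apply bottom_right l b n
      have : ((l.length + 4 - b : ℕ) : ℤ) = l.length + 4 - b := by omega
      rw [this] at hn
      linarith
  | cons x l' ih =>
    have hl'' : ∀ y ∈ l', 0 < y := fun y hy => hl' y (List.mem_cons_of_mem _ hy)
    have hx := hl' x List.mem_cons_self
    have h := (ih hl'').step hx
    have e1 : (fun n => Om z (Fc l) (sh b (Fc l)) (sh n (Fc (x :: l')))) =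
        fun n => Om z (Fc l) (sh b (Fc l)) (sh n (Fc l')) +
          x * Om z (Fc l) (sh b (Fc l)) (sh (n + 1) (Fc l')) := by
      funext n
      exact Om_cons z l (sh b (Fc l)) x l' n
    rw [e1]
    have e2 : (b : ℤ) - 2 - ((x :: l').length : ℕ) = (b : ℤ) - 2 - l'.length - 1 := by
      simp only [List.length_cons]; push_cast; ring
    have e3 : l.length + 4 - b + (x :: l').length = l.length + 4 - b + l'.length + 1 := by
      simp only [List.length_cons]; ring
    have e4 : (-((l.length + 4 - b : ℕ) : ℝ) + ((x :: l').length : ℕ)) =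
        -((l.length + 4 - b : ℕ) : ℝ) + l'.length + 1 := by
      simp only [List.length_cons]; push_cast; ring
    rw [e2, e3, e4]
    exact h

end Pool.Agent.Lib_helper20.Fisk
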