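import Pool.Agent.Lib_helper20.FiskSturm

/-!
# Fisk's 3x3 theorem for `∏ (1 + x_i t)`
-/

set_option autoImplicit false

namespace Pool.Agent.Lib_helper20.Fisk

open Finset Polynomial

/-- `w_q`, with `P_{0,q}(z) = z^q w_q(z)`. -/
noncomputable def W (l : List ℝ) (q : ℕ) : ℝ[X] :=
  ∑ m ∈ range (l.length + 1 - q),
    C (D3 (Fc l) (sh 1 (Fc l)) (sh ((q : ℤ) + 2) (Fc l)) ((q : ℤ) + m)) * X ^ m

theorem W_coeff (l : List ℝ) (q k : ℕ) : (W l q).coeff k =
    if k < l.length + 1 - q then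
      D3 (Fc l) (sh 1 (Fc l)) (sh ((q : ℤ) + 2) (Fc l)) ((q : ℤ) + k) else 0 := by
  unfold W
  rw [finsetSum_coeff]
  simp only [coeff_C_mul_X_pow]
  rw [sum_ite_eq]
  simp only [mem_range]

theorem W_eval (l : List ℝ) (q : ℕ) (z : ℝ) : (W l q).eval z =
    ∑ m ∈ range (l.length + 1 - q),
      D3 (Fc l) (sh 1 (Fc l)) (sh ((q : ℤ) + 2) (Fc l)) ((q : ℤ) + m) * z ^ m := by
  unfold W
  rw [eval_finsetSum]
  apply sum_congr rfl
  intro m _
  simp

theorem PP_eq {z : ℝ} (hz : z ≠ 0) (l : List ℝ) (q : ℕ) (hq : q ≤ l.length) :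
    PP z l 0 q = z ^ q * (W l q).eval z := by
  unfold PP Om
  have e1 : ((0 : ℕ) : ℤ) + 1 = 1 := by norm_num
  have e2 : ((0 : ℕ) : ℤ) + q + 2 = (q : ℤ) + 2 := by push_cast; ring
  rw [e1, e2, tsum_eq_sum (s := (range (l.length + 1 - q)).image (fun m : ℕ => (q : ℤ) + m))]
  · rw [sum_image (by intro a _ b _ h; simp only at h; omega), W_eval, mul_sum]
    apply sum_congr rfl
    intro m _
    rw [zpow_add₀ hz, zpow_natCast, zpow_natCast]
    ring
  · intro m hm
    have hm' : m < q ∨ (l.length : ℤ) < m := by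
      by_contra hcon
      rw [not_or, not_lt, not_lt] at hcon
      apply hm
      rw [mem_image]
      refine ⟨(m - q).toNat, ?_, ?_⟩
      · rw [mem_range]; omega
      · omega
    have : D3 (Fc l) (sh 1 (Fc l)) (sh ((q : ℤ) + 2) (Fc l)) m = 0 := by
      rcases hm' with h | h
      · simp only [D3, sh]
        rw [Fc_neg l (m - ((q : ℤ) + 2)) (by omega), Fc_neg l (m + 1 - ((q : ℤ) + 2)) (by omega),
          Fc_neg l (m + 2 - ((q : ℤ) + 2)) (by omega)]
        ring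
      · simp only [D3]
        rw [Fc_gt l m h, Fc_gt l (m + 1) (by omega), Fc_gt l (m + 2) (by omega)]
        ring
    rw [this, mul_zero]

theorem D3_first (l : List ℝ) (hl : ∀ x ∈ l, 0 < x) (q : ℕ) (hq : q ≤ l.length) :
    0 < D3 (Fc l) (sh 1 (Fc l)) (sh ((q : ℤ) + 2) (Fc l)) q := by
  have h := Mn_pos l hl 1 le_rfl q (q + 1) (by omega) (by omega) (by omega) (by omega) (by omega)
  have e : D3 (Fc l) (sh 1 (Fc l)) (sh ((q : ℤ) + 2) (Fc l)) q =
      Fc l 0 * Mn l 1 q (q + 1) := by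
    simp only [D3, sh, Mn]
    have a1 : (q : ℤ) - (q + 2) = -2 := by ring
    have a2 : (q : ℤ) + 1 - (q + 2) = -1 := by ring
    have a3 : (q : ℤ) + 2 - (q + 2) = 0 := by ring
    rw [a1, a2, a3, Fc_neg l (-2) (by norm_num), Fc_neg l (-1) (by norm_num)]
    ring
  rw [e]
  exact mul_pos (Fc_pos l hl 0 le_rfl (by omega)) h

theorem D3_last (l : List ℝ) (hl : ∀ x ∈ l, 0 < x) (q : ℕ) (hq : q ≤ l.length) :
    0 < D3 (Fc l) (sh 1 (Fc l)) (sh ((q : ℤ) + 2) (Fc l)) l.length := by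
  have h1 := Fc_pos l hl l.length (by omega) le_rfl
  have h2 := Fc_pos l hl ((l.length : ℤ) - q) (by omega) (by omega)
  have e : D3 (Fc l) (sh 1 (Fc l)) (sh ((q : ℤ) + 2) (Fc l)) l.length =
      Fc l l.length * (Fc l l.length * Fc l ((l.length : ℤ) - q)) := by
    simp only [D3, sh]
    have a0 : (l.length : ℤ) + 1 - 1 = l.length := by ring
    have a1 : (l.length : ℤ) + 2 - (q + 2) = (l.length : ℤ) - q := by ring
    have a2 : (l.length : ℤ) + 2 - 1 = (l.length : ℤ) + 1 := by ring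
    rw [Fc_gt l ((l.length : ℤ) + 1) (by omega), Fc_gt l ((l.length : ℤ) + 2) (by omega), a0, a1,
      a2, Fc_gt l ((l.length : ℤ) + 1) (by omega)]
    ring
  rw [e]
  positivity

/-- **Fisk's theorem** for products `∏ (1 + x_i t)`. -/
theorem fisk_W (l : List ℝ) (hl : ∀ x ∈ l, 0 < x) :
    ∃ (c : ℝ) (ζ : ℕ → ℝ), 0 < c ∧ (∀ i < l.length, ζ i < 0) ∧
      W l 0 = C c * ∏ i ∈ range l.length, (X - C (ζ i)) := by
  set N := l.length with hNdef
  have hdeg : ∀ k ≤ N, (W l (N - k)).natDegree ≤ k := by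
    intro k hk
    rw [natDegree_le_iff_coeff_eq_zero]
    intro m hm
    rw [W_coeff, if_neg (by omega)]
  have hlead : ∀ k ≤ N, 0 < (W l (N - k)).coeff k := by
    intro k hk
    rw [W_coeff, if_pos (by omega)]
    have e : ((N - k : ℕ) : ℤ) + (k : ℕ) = (l.length : ℤ) := by omega
    rw [e]
    exact D3_last l hl (N - k) (by omega)
  have h0 : ∀ k ≤ N, 0 < (W l (N - k)).eval 0 := by
    intro k hk
    rw [← coeff_zero_eq_eval_zero, W_coeff, if_pos (by omega)]
    have e : ((N - k : ℕ) : ℤ) + ((0 : ℕ) : ℤ) = ((N - k : ℕ) : ℤ) := by simp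
    rw [e]
    exact D3_first l hl (N - k) (by omega)
  have hst : ∀ k, k + 2 ≤ N → ∀ z < 0, (W l (N - (k + 1))).eval z = 0 →
      (W l (N - k)).eval z * (W l (N - (k + 2))).eval z < 0 := by
    intro k hk z hz hzero
    obtain ⟨q, hq⟩ : ∃ q, N = q + k + 2 := ⟨N - k - 2, by omega⟩
    have e1 : N - (k + 1) = q + 1 := by omega
    have e2 : N - k = q + 2 := by omega
    have e3 : N - (k + 2) = q := by omega
    rw [e1] at hzero
    rw [e2, e3]
    have hP : PP z l 0 (q + 1) = 0 := by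
      rw [PP_eq hz.ne l (q + 1) (by omega), hzero, mul_zero]
    have h := sturm_col hz l hl q (by omega) hP
    rw [PP_eq hz.ne l q (by omega), PP_eq hz.ne l (q + 2) (by omega)] at h
    have hzz : 0 < z ^ q * z ^ (q + 2) := by
      have : z ^ q * z ^ (q + 2) = (z ^ (q + 1)) ^ 2 := by ring
      rw [this]
      exact sq_pos_of_ne_zero (pow_ne_zero _ hz.ne)
    have h' : (z ^ q * z ^ (q + 2)) * ((W l (q + 2)).eval z * (W l q).eval z) < 0 := by
      calc _ = z ^ q * (W l q).eval z * (z ^ (q + 2) * (W l (q + 2)).eval z) := by ring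
        _ < 0 := h
    by_contra hcon
    have := mul_nonneg hzz.le (not_lt.mp hcon)
    linarith
  obtain ⟨ζ, h1, _, h3, _⟩ := sturm_abstract (fun k => W l (N - k)) N hdeg hlead h0 hst N le_rfl
  refine ⟨(W l (N - N)).coeff N, ζ, hlead N le_rfl, h1, ?_⟩
  have e : N - N = 0 := Nat.sub_self N
  simp only [e] at h3 ⊢
  exact h3

end Pool.Agent.Lib_helper20.Fisk
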