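import Pool.Agent.Lib_helper20.FiskTP

/-!
# The sums `Ω_z(f,g,h)` of 3x3 determinants
-/

set_option autoImplicit false

namespace Pool.Agent.Lib_helper20.Fisk

open Finset

/-- the 3x3 determinant with rows `f, g, h` and columns `m, m+1, m+2`. -/
def D3 (f g h : ℤ → ℝ) (m : ℤ) : ℝ :=
  f m * (g (m + 1) * h (m + 2) - g (m + 2) * h (m + 1))
    - f (m + 1) * (g m * h (m + 2) - g (m + 2) * h m)
    + f (m + 2) * (g m * h (m + 1) - g (m + 1) * h m)

/-- `Ω_z(f,g,h) = ∑_m z^m det(...)`. -/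
noncomputable def Om (z : ℝ) (f g h : ℤ → ℝ) : ℝ := ∑' m : ℤ, z ^ m * D3 f g h m

/-- shift. -/
def sh (n : ℤ) (f : ℤ → ℝ) : ℤ → ℝ := fun m => f (m - n)

theorem Om_swap (z : ℝ) (f g h : ℤ → ℝ) : Om z f g h = - Om z g f h := by
  unfold Om
  rw [← tsum_neg]
  apply tsum_congr
  intro m
  unfold D3; ring

theorem Om_cyc (z : ℝ) (f g h : ℤ → ℝ) : Om z f g h = Om z h f g := by
  unfold Om
  apply tsum_congr
  intro m
  unfold D3; ring

theorem Om_swap23 (z : ℝ) (f g h : ℤ → ℝ) : Om z f g h = - Om z f h g := by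
  unfold Om
  rw [← tsum_neg]
  apply tsum_congr
  intro m
  unfold D3; ring

theorem Om_self13 (z : ℝ) (f g : ℤ → ℝ) : Om z f g f = 0 := by
  unfold Om
  have : (fun m : ℤ => z ^ m * D3 f g f m) = fun _ => 0 := by
    funext m; unfold D3; ring
  rw [this, tsum_zero]

theorem Om_self23 (z : ℝ) (f g : ℤ → ℝ) : Om z f g g = 0 := by
  unfold Om
  have : (fun m : ℤ => z ^ m * D3 f g g m) = fun _ => 0 := by
    funext m; unfold D3; ring
  rw [this, tsum_zero]

theorem Om_shift {z : ℝ} (hz : z ≠ 0) (n : ℤ) (f g h : ℤ → ℝ) :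
    Om z (sh n f) (sh n g) (sh n h) = z ^ n * Om z f g h := by
  unfold Om
  rw [← tsum_mul_left, ← (Equiv.subRight n).tsum_eq (fun m : ℤ => z ^ n * (z ^ m * D3 f g h m))]
  apply tsum_congr
  intro m
  simp only [Equiv.subRight_apply]
  rw [← mul_assoc, ← zpow_add₀ hz]
  have e0 : n + (m - n) = m := by ring
  have e1 : m + 1 - n = m - n + 1 := by ring
  have e2 : m + 2 - n = m - n + 2 := by ring
  rw [e0]
  simp only [D3, sh, e1, e2]

theorem sh_sh (a b : ℤ) (f : ℤ → ℝ) : sh a (sh b f) = sh (a + b) f := by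
  funext m; simp only [sh]; congr 1; ring

theorem sh_zero (f : ℤ → ℝ) : sh 0 f = f := by
  funext m; simp [sh]

theorem D3_zero (l : List ℝ) (g h : ℤ → ℝ) (m : ℤ) (hm : m ∉ Finset.Icc (-2 : ℤ) l.length) :
    D3 (Fc l) g h m = 0 := by
  rw [Finset.mem_Icc, not_and_or, not_le, not_le] at hm
  unfold D3
  rcases hm with hm | hm
  · rw [Fc_neg l m (by omega), Fc_neg l (m + 1) (by omega), Fc_neg l (m + 2) (by omega)]; ring
  · rw [Fc_gt l m (by omega), Fc_gt l (m + 1) (by omega), Fc_gt l (m + 2) (by omega)]; ring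

theorem Om_eq_sum (z : ℝ) (l : List ℝ) (g h : ℤ → ℝ) :
    Om z (Fc l) g h = ∑ m ∈ Finset.Icc (-2 : ℤ) l.length, z ^ m * D3 (Fc l) g h m := by
  unfold Om
  apply tsum_eq_sum
  intro m hm
  rw [D3_zero l g h m hm, mul_zero]

/-- multiplying the third slot by `1 + x t`. -/
theorem Om_cons (z : ℝ) (l : List ℝ) (g : ℤ → ℝ) (x : ℝ) (l' : List ℝ) (n : ℤ) :
    Om z (Fc l) g (sh n (Fc (x :: l'))) =
      Om z (Fc l) g (sh n (Fc l')) + x * Om z (Fc l) g (sh (n + 1) (Fc l')) := by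
  rw [Om_eq_sum, Om_eq_sum, Om_eq_sum, mul_sum, ← sum_add_distrib]
  apply sum_congr rfl
  intro m _
  have e0 : m - (n + 1) = m - n - 1 := by ring
  have e1 : m + 1 - (n + 1) = m + 1 - n - 1 := by ring
  have e2 : m + 2 - (n + 1) = m + 2 - n - 1 := by ring
  simp only [D3, sh, Fc, e0, e1, e2]
  ring

/-- the bottom of a line: third slot a monomial. -/
theorem Om_nil (z : ℝ) (l : List ℝ) (b n : ℤ) :
    Om z (Fc l) (sh b (Fc l)) (sh n (Fc [])) =
      z ^ n * Mn l b (n + 1) (n + 2) - z ^ (n - 1) * Mn l b (n - 1) (n + 1)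
        + z ^ (n - 2) * Mn l b (n - 2) (n - 1) := by
  unfold Om
  rw [tsum_eq_sum (s := {n, n - 1, n - 2})]
  · rw [sum_insert (by simp only [mem_insert, mem_singleton]; omega),
      sum_insert (by simp only [mem_singleton]; omega), sum_singleton]
    have a1 : n - 1 + 1 = n := by ring
    have a2 : n - 1 + 2 = n + 1 := by ring
    have a3 : n - 2 + 1 = n - 1 := by ring
    have a4 : n - 2 + 2 = n := by ring
    have c0 : Fc [] (n - n) = 1 := by simp [Fc]
    have c1 : Fc [] (n + 1 - n) = 0 := by simp [Fc]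
    have c2 : Fc [] (n + 2 - n) = 0 := by simp [Fc]
    have c3 : Fc [] (n - 1 - n) = 0 := by simp [Fc]
    have c4 : Fc [] (n - 2 - n) = 0 := by simp [Fc]
    simp only [D3, sh, Mn, a1, a2, a3, a4, c0, c1, c2, c3, c4]
    ring
  · intro m hm
    simp only [mem_insert, mem_singleton, not_or] at hm
    obtain ⟨h1, h2, h3⟩ := hm
    have c0 : Fc [] (m - n) = 0 := by
      simp only [Fc]; rw [if_neg (by omega)]
    have c1 : Fc [] (m + 1 - n) = 0 := by
      simp only [Fc]; rw [if_neg (by omega)]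
    have c2 : Fc [] (m + 2 - n) = 0 := by
      simp only [Fc]; rw [if_neg (by omega)]
    simp only [D3, sh, c0, c1, c2]
    ring

end Pool.Agent.Lib_helper20.Fisk
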