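import Pool.Agent.Lib_helper20.FiskFinal

/-!
# Fisk's theorem with the simplicity of the nonzero zeros, and the class `L-P`
-/

set_option autoImplicit false

namespace Pool.Agent.Lib_helper20.Fisk

open Finset Polynomial

/-- `fisk_W` with distinct zeros. -/
theorem fisk_W_simple (l : List ℝ) (hl : ∀ x ∈ l, 0 < x) :
    ∃ (c : ℝ) (ζ : ℕ → ℝ), 0 < c ∧ (∀ i < l.length, ζ i < 0) ∧
      (∀ i j, i < j → j < l.length → ζ i < ζ j) ∧
      W l 0 = C c * ∏ i ∈ range l.length, (X - C (ζ i)) := by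
  set N := l.length with hNdef
  have hdeg : ∀ k ≤ N, (W l (N - k)).natDegree ≤ k := by
    intro k hk
    rw [natDegree_le_iff_coeff_eq_zero]
    intro m hm
    rw [W_coeff, if_neg (by omega)]
  have hlead : ∀ k ≤ N, 0 < (W l (N - k)).coeff k := by
    intro k hk
    rw [W_coeff, if_pos (by omega)]
    have e : ((N - k : ℕ) : ℤ) + (k : ℕ) = (l.length : ℤ) := by omega
    rw [e]
    exact D3_last l hl (N - k) (by omega)
  have h0 : ∀ k ≤ N, 0 < (W l (N - k)).eval 0 := by
    intro k hk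
    rw [← coeff_zero_eq_eval_zero, W_coeff, if_pos (by omega)]
    have e : ((N - k : ℕ) : ℤ) + ((0 : ℕ) : ℤ) = ((N - k : ℕ) : ℤ) := by simp
    rw [e]
    exact D3_first l hl (N - k) (by omega)
  have hst : ∀ k, k + 2 ≤ N → ∀ z < 0, (W l (N - (k + 1))).eval z = 0 →
      (W l (N - k)).eval z * (W l (N - (k + 2))).eval z < 0 := by
    intro k hk z hz hzero
    obtain ⟨q, hq⟩ : ∃ q, N = q + k + 2 := ⟨N - k - 2, by omega⟩
    have e1 : N - (k + 1) = q + 1 := by omega
    have e2 : N - k = q + 2 := by omega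
    have e3 : N - (k + 2) = q := by omega
    rw [e1] at hzero
    rw [e2, e3]
    have hP : PP z l 0 (q + 1) = 0 := by
      rw [PP_eq hz.ne l (q + 1) (by omega), hzero, mul_zero]
    have h := sturm_col hz l hl q (by omega) hP
    rw [PP_eq hz.ne l q (by omega), PP_eq hz.ne l (q + 2) (by omega)] at h
    have hzz : 0 < z ^ q * z ^ (q + 2) := by
      have : z ^ q * z ^ (q + 2) = (z ^ (q + 1)) ^ 2 := by ring
      rw [this]
      exact sq_pos_of_ne_zero (pow_ne_zero _ hz.ne)
    have h' : (z ^ q * z ^ (q + 2)) * ((W l (q + 2)).eval z * (W l q).eval z) < 0 := by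
      calc _ = z ^ q * (W l q).eval z * (z ^ (q + 2) * (W l (q + 2)).eval z) := by ring
        _ < 0 := h
    by_contra hcon
    have := mul_nonneg hzz.le (not_lt.mp hcon)
    linarith
  obtain ⟨ζ, h1, h2, h3, _⟩ := sturm_abstract (fun k => W l (N - k)) N hdeg hlead h0 hst N le_rfl
  refine ⟨(W l (N - N)).coeff N, ζ, hlead N le_rfl, h1, h2, ?_⟩
  have e : N - N = 0 := Nat.sub_self N
  simp only [e] at h3 ⊢
  exact h3

/-- the value at zero of the product -/
theorem eval_zero_list (l : List ℝ) :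
    ((l.map (fun x => (1 + C x * X : ℝ[X]))).prod).eval 0 = 1 := by
  induction l with
  | nil => simp
  | cons x l ih => simp [ih]

/-- The main theorem with explicit factorizations. -/
theorem main_factor (p : ℝ[X]) (hp0 : p ≠ 0) (hnn : ∀ k : ℕ, 0 ≤ p.coeff k)
    (hreal : ∀ z : ℂ, Polynomial.aeval z p = 0 → z.im = 0) (q : ℝ[X])
    (hq : q = ∑ k ∈ Finset.range (p.natDegree + 1),
          Polynomial.C (Matrix.det (Matrix.of (fun i j : Fin 3 =>
            if 0 ≤ (k : ℤ) + ((j : ℕ) : ℤ) - ((i : ℕ) : ℤ)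
            then p.coeff ((k : ℤ) + ((j : ℕ) : ℤ) - ((i : ℕ) : ℤ)).toNat
            else (0 : ℝ)))) * Polynomial.X ^ k) :
    ∃ (c a : ℝ) (s : ℕ) (l : List ℝ) (ζ : ℕ → ℝ), 0 < c ∧ 0 < a ∧ (∀ x ∈ l, 0 < x) ∧
      p = C c * X ^ s * (l.map (fun x => 1 + C x * X)).prod ∧
      p.natDegree = s + l.length ∧
      (∀ i < l.length, ζ i < 0) ∧ (∀ i j, i < j → j < l.length → ζ i < ζ j) ∧
      q = C a * X ^ s * ∏ i ∈ range l.length, (X - C (ζ i)) := by
  have hpos : ∀ x : ℝ, 0 < x → p.eval x ≠ 0 := by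
    intro x hx h
    rw [eval_eq_sum_range] at h
    have h1 := (sum_eq_zero_iff_of_nonneg (fun i _ => mul_nonneg (hnn i) (pow_nonneg hx.le i))).mp h
      p.natDegree (mem_range.mpr (Nat.lt_succ_self _))
    rcases mul_eq_zero.mp h1 with h2 | h2
    · exact hp0 (leadingCoeff_eq_zero.mp h2)
    · exact (pow_pos hx _).ne' h2
  obtain ⟨c, s, l, hc, hl, hfac⟩ := exists_factor p.natDegree p rfl hp0 hreal hpos
  have hcoef : ∀ k : ℕ, p.coeff k = c * Fc l ((k : ℤ) - s) := by
    intro k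
    conv_lhs => rw [hfac]
    exact coeff_general c s l k
  have hcpos : 0 < c := by
    have h1 := hnn s
    rw [hcoef s, sub_self] at h1
    have h2 := Fc_pos l hl 0 le_rfl (by omega)
    rcases lt_or_gt_of_ne hc with h | h
    · exfalso
      have := mul_neg_of_neg_of_pos h h2
      linarith
    · exact h
  have hdeg : p.natDegree = s + l.length := by
    rw [hfac, mul_assoc, natDegree_C_mul hc, natDegree_mul (pow_ne_zero _ X_ne_zero) (by
      intro h
      have := natDegree_prod_list l hl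
      have h2 := coeff_prod l 0
      rw [h] at h2
      simp only [coeff_zero, Nat.cast_zero] at h2
      exact (Fc_pos l hl 0 le_rfl (by omega)).ne h2),
      natDegree_X_pow, natDegree_prod_list l hl]
  have hentry : ∀ (k : ℕ) (i j : Fin 3),
      (if 0 ≤ (k : ℤ) + ((j : ℕ) : ℤ) - ((i : ℕ) : ℤ)
            then p.coeff ((k : ℤ) + ((j : ℕ) : ℤ) - ((i : ℕ) : ℤ)).toNat
            else (0 : ℝ)) = c * Fc l ((k : ℤ) - s + ((j : ℕ) : ℤ) - ((i : ℕ) : ℤ)) := by
    intro k i j
    split_ifs with h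
    · rw [hcoef, Int.toNat_of_nonneg h]
      congr 2; ring
    · rw [Fc_neg l _ (by omega), mul_zero]
  have hdet : ∀ k : ℕ, Matrix.det (Matrix.of (fun i j : Fin 3 =>
            if 0 ≤ (k : ℤ) + ((j : ℕ) : ℤ) - ((i : ℕ) : ℤ)
            then p.coeff ((k : ℤ) + ((j : ℕ) : ℤ) - ((i : ℕ) : ℤ)).toNat
            else (0 : ℝ))) = c ^ 3 * D3 (Fc l) (sh 1 (Fc l)) (sh 2 (Fc l)) ((k : ℤ) - s) := by
    intro k
    simp only [hentry]
    rw [Matrix.det_fin_three]
    simp only [Matrix.of_apply, Fin.val_zero, Fin.val_one, Fin.val_two, D3, sh]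
    push_cast
    have a0 : (k : ℤ) - s + 0 - 0 = k - s := by ring
    have a1 : (k : ℤ) - s + 1 - 0 = k - s + 1 := by ring
    have a2 : (k : ℤ) - s + 2 - 0 = k - s + 2 := by ring
    have a3 : (k : ℤ) - s + 0 - 1 = k - s - 1 := by ring
    have a4 : (k : ℤ) - s + 0 - 2 = k - s - 2 := by ring
    rw [a0, a1, a2, a3, a4]
    ring
  have hqW : q = C (c ^ 3) * X ^ s * W l 0 := by
    rw [hq, hdeg]
    have e : s + l.length + 1 = s + (l.length + 1) := by ring
    rw [e, sum_range_add]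
    have z1 : ∑ k ∈ range s, C (Matrix.det (Matrix.of (fun i j : Fin 3 =>
            if 0 ≤ (k : ℤ) + ((j : ℕ) : ℤ) - ((i : ℕ) : ℤ)
            then p.coeff ((k : ℤ) + ((j : ℕ) : ℤ) - ((i : ℕ) : ℤ)).toNat
            else (0 : ℝ)))) * (X : ℝ[X]) ^ k = 0 := by
      apply sum_eq_zero
      intro k hk
      have hk' := mem_range.mp hk
      rw [hdet]
      have : D3 (Fc l) (sh 1 (Fc l)) (sh 2 (Fc l)) ((k : ℤ) - s) = 0 := by
        simp only [D3, sh]
        rw [Fc_neg l ((k : ℤ) - s - 2) (by omega), Fc_neg l ((k : ℤ) - s + 1 - 2) (by omega),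
          Fc_neg l ((k : ℤ) - s + 2 - 2) (by omega)]
        ring
      rw [this, mul_zero, C_0, zero_mul]
    rw [z1, zero_add]
    unfold W
    rw [Nat.sub_zero, mul_sum]
    apply sum_congr rfl
    intro m _
    rw [hdet]
    have e1 : ((s + m : ℕ) : ℤ) - s = ((0 : ℕ) : ℤ) + m := by push_cast; ring
    have e2 : ((0 : ℕ) : ℤ) + 2 = 2 := by norm_num
    rw [e1, e2, C_mul, pow_add]
    ring
  obtain ⟨a, ζ, ha, hζ, hζ2, hW⟩ := fisk_W_simple l hl
  refine ⟨c, c ^ 3 * a, s, l, ζ, hcpos, by positivity, hl, hfac, hdeg, hζ, hζ2, ?_⟩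
  rw [hqW, hW, C_mul]
  ring

/-- the absolute value of a real polynomial with only real zeros grows along vertical lines -/
theorem norm_vertical (P : ℝ[X]) (hP : ∀ z : ℂ, aeval z P = 0 → z.im = 0) (z w : ℂ)
    (hre : z.re = w.re) (him : |z.im| ≤ |w.im|) : ‖aeval z P‖ ≤ ‖aeval w P‖ := by
  set Q : ℂ[X] := P.map (algebraMap ℝ ℂ) with hQ
  have hs : Q.Splits := IsAlgClosed.splits Q
  have hev : ∀ u : ℂ, aeval u P = Q.leadingCoeff * (Q.roots.map (fun r => u - r)).prod := by
    intro u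
    have h1 : aeval u P = Q.eval u := by rw [hQ, eval_map_algebraMap]
    rw [h1]
    conv_lhs => rw [hs.eq_prod_roots]
    rw [eval_mul, eval_C, eval_multiset_prod, Multiset.map_map]
    simp
  rw [hev z, hev w, norm_mul, norm_mul]
  apply mul_le_mul_of_nonneg_left _ (norm_nonneg _)
  have hn : ∀ u : ℂ, ‖(Q.roots.map (fun r => u - r)).prod‖ =
      (Q.roots.map (fun r => ‖u - r‖)).prod := by
    intro u
    have h1 := map_multiset_prod (normHom : ℂ →*₀ ℝ) (Q.roots.map (fun r => u - r))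
    rw [Multiset.map_map] at h1
    exact h1
  rw [hn z, hn w]
  apply Multiset.prod_map_le_prod_map₀
  · intro r _
    exact norm_nonneg _
  · intro r hr
    have hr0 : r.im = 0 := by
      apply hP
      have h1 : Q.eval r = 0 := (mem_roots'.1 hr).2
      rwa [hQ, eval_map_algebraMap] at h1
    rw [Complex.norm_def, Complex.norm_def]
    apply Real.sqrt_le_sqrt
    rw [Complex.normSq_apply, Complex.normSq_apply, Complex.sub_re, Complex.sub_re, Complex.sub_im,
      Complex.sub_im, hre, hr0, sub_zero, sub_zero]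
    have h2 : z.im * z.im ≤ w.im * w.im := by
      have := sq_le_sq.2 him
      nlinarith
    linarith

/-- a nonzero real polynomial which is a pointwise limit of real polynomials with only real zeros
has only real zeros -/
theorem real_of_limit (P : ℕ → ℝ[X]) (hP : ∀ n, ∀ z : ℂ, aeval z (P n) = 0 → z.im = 0) (p : ℝ[X])
    (hlim : ∀ z : ℂ, Filter.Tendsto (fun n => aeval z (P n)) Filter.atTop (nhds (aeval z p)))
    (hp : p ≠ 0) (z : ℂ) (hz : aeval z p = 0) : z.im = 0 := by
  by_contra hcon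
  have hzero : ∀ t : ℝ, |t| ≤ 1 → aeval (⟨z.re, t * z.im⟩ : ℂ) p = 0 := by
    intro t ht
    have h1 : ‖aeval (⟨z.re, t * z.im⟩ : ℂ) p‖ ≤ ‖aeval z p‖ := by
      refine le_of_tendsto_of_tendsto (hlim _).norm (hlim z).norm
        (Filter.Eventually.of_forall fun n => norm_vertical (P n) (hP n) _ _ rfl ?_)
      show |t * z.im| ≤ |z.im|
      rw [abs_mul]
      calc |t| * |z.im| ≤ 1 * |z.im| := mul_le_mul_of_nonneg_right ht (abs_nonneg _)
        _ = |z.im| := one_mul _
    rw [hz, norm_zero] at h1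
    exact norm_le_zero_iff.1 h1
  have hQ : p.map (algebraMap ℝ ℂ) ≠ 0 := (Polynomial.map_ne_zero_iff
    (algebraMap ℝ ℂ).injective).2 hp
  have hinf : Set.Infinite ((fun t : ℝ => (⟨z.re, t * z.im⟩ : ℂ)) '' Set.Icc 0 1) := by
    apply Set.Infinite.image
    · intro s _ t _ h
      have h1 : s * z.im = t * z.im := congrArg Complex.im h
      exact mul_right_cancel₀ hcon h1
    · exact Set.Icc_infinite (by norm_num)
  apply hQ
  apply Polynomial.eq_zero_of_infinite_isRoot
  refine hinf.mono ?_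
  rintro _ ⟨t, ht, rfl⟩
  show (p.map (algebraMap ℝ ℂ)).eval _ = 0
  rw [eval_map_algebraMap]
  exact hzero t (abs_le.2 ⟨by linarith [ht.1], ht.2⟩)

/-- zeros of a product of distinct linear factors, times a power of `X` -/
theorem roots_fac (a : ℝ) (ha : 0 < a) (s N : ℕ) (ζ : ℕ → ℝ) (h1 : ∀ i < N, ζ i < 0)
    (h2 : ∀ i j, i < j → j < N → ζ i < ζ j) (q : ℝ[X])
    (hq : q = C a * X ^ s * ∏ i ∈ range N, (X - C (ζ i))) :
    q ≠ 0 ∧ (∀ k, 0 ≤ q.coeff k) ∧ (∀ z : ℂ, aeval z q = 0 → z.im = 0) ∧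
      q.natDegree = s + N ∧ q.rootMultiplicity 0 = s ∧
      ∀ x : ℝ, x ≠ 0 → q.rootMultiplicity x ≤ 1 := by
  have hC : (C a : ℝ[X]) ≠ 0 := C_ne_zero.2 ha.ne'
  have hX : (X : ℝ[X]) ^ s ≠ 0 := pow_ne_zero _ X_ne_zero
  have hPr : ∏ i ∈ range N, (X - C (ζ i)) ≠ 0 := prod_ne_zero_iff.2 fun i _ => X_sub_C_ne_zero _
  have hq0 : q ≠ 0 := by
    rw [hq]
    exact mul_ne_zero (mul_ne_zero hC hX) hPr
  have hinj : ∀ i ∈ range N, ∀ j ∈ range N, ζ i = ζ j → i = j := by
    intro i hi j hj h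
    rw [mem_range] at hi hj
    rcases lt_trichotomy i j with h3 | h3 | h3
    · exact absurd h (h2 i j h3 hj).ne
    · exact h3
    · exact absurd h (h2 j i h3 hi).ne'
  have hprod : ∏ i ∈ range N, (X - C (ζ i)) = ∏ a ∈ (range N).image ζ, (X - C a) := by
    rw [prod_image hinj]
  have hroots : q.roots = Multiset.replicate s 0 + ((range N).image ζ).val := by
    rw [hq, hprod, roots_mul (mul_ne_zero (mul_ne_zero hC hX) (hprod ▸ hPr)),
      roots_C_mul _ ha.ne', roots_pow, roots_X, roots_prod_X_sub_C, Multiset.nsmul_singleton]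
  have hdeg : q.natDegree = s + N := by
    rw [hq, natDegree_mul (mul_ne_zero hC hX) hPr, natDegree_C_mul ha.ne', natDegree_X_pow,
      natDegree_prod _ _ (fun i _ => X_sub_C_ne_zero _)]
    simp
  refine ⟨hq0, ?_, ?_, hdeg, ?_, ?_⟩
  · rw [hq]
    apply nonneg_mul
    · intro k
      rw [coeff_C_mul_X_pow]
      split_ifs
      · exact ha.le
      · exact le_rfl
    · exact nonneg_prod ζ _ h1
  · intro z hz
    rw [hq] at hz
    simp only [map_mul, map_pow, aeval_C, aeval_X, map_prod, map_sub] at hz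
    rcases mul_eq_zero.mp hz with h | h
    · rcases mul_eq_zero.mp h with h' | h'
      · exfalso
        have h3 : (a : ℂ) = 0 := by simpa using h'
        exact ha.ne' (by exact_mod_cast h3)
      · have : z = 0 := by
          by_contra hne
          exact pow_ne_zero s hne h'
        rw [this]; simp
    · rw [prod_eq_zero_iff] at h
      obtain ⟨i, _, hi⟩ := h
      have : z = ((ζ i : ℝ) : ℂ) := by
        have := sub_eq_zero.mp hi
        simpa using this
      rw [this]; simp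
  · rw [← count_roots, hroots, Multiset.count_add, Multiset.count_replicate_self,
      Multiset.count_eq_zero_of_notMem, add_zero]
    intro h
    rw [Finset.mem_val, mem_image] at h
    obtain ⟨i, hi, h3⟩ := h
    exact (h1 i (mem_range.1 hi)).ne h3
  · intro x hx
    rw [← count_roots, hroots, Multiset.count_add, Multiset.count_replicate,
      if_neg (Ne.symm hx), zero_add]
    exact Multiset.nodup_iff_count_le_one.1 (Finset.nodup _) x

end Pool.Agent.Lib_helper20.Fisk
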