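import Pool.Agent.Lib_helper20.FiskCount

/-!
# The Sturm property and real-rootedness
-/

set_option autoImplicit false

namespace Pool.Agent.Lib_helper20.Fisk

open Finset

/-- flip the sign at `(0, j)`. -/
noncomputable def flip (s : ℕ → ℕ → ℝ) (j : ℕ) : ℕ → ℕ → ℝ :=
  fun p q => if p = 0 ∧ q = j then - s p q else s p q

theorem Adm.flip {z : ℝ} {l : List ℝ} {s : ℕ → ℕ → ℝ} (hs : Adm z l s) {j : ℕ}
    (hj : PP z l 0 j = 0) : Adm z l (flip s j) := by
  refine ⟨?_, ?_⟩
  · intro p q
    unfold Fisk.flip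
    split_ifs
    · rcases hs.sgn p q with h | h <;> rw [h] <;> norm_num
    · exact hs.sgn p q
  · intro p q
    unfold Fisk.flip
    split_ifs with h
    · rw [h.1, h.2, hj]; simp
    · exact hs.nn p q

theorem exists_adm (z : ℝ) (l : List ℝ) : ∃ s, Adm z l s := by
  classical
  refine ⟨fun p q => if 0 ≤ PP z l p q then 1 else -1, ?_, ?_⟩
  · intro p q
    show (if 0 ≤ PP z l p q then (1 : ℝ) else -1) = 1 ∨ (if 0 ≤ PP z l p q then (1 : ℝ) else -1) = -1
    split_ifs
    · left; rfl
    · right; rfl
  · intro p q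
    show 0 ≤ (if 0 ≤ PP z l p q then (1 : ℝ) else -1) * PP z l p q
    split_ifs with h
    · rw [one_mul]; exact h
    · have := not_le.mp h
      linarith

theorem adm_opp {z : ℝ} (hz : z < 0) (l : List ℝ) (hl : ∀ x ∈ l, 0 < x)
    (r : ℕ) (hr : r + 2 ≤ l.length) (h0 : PP z l 0 (r + 1) = 0)
    (s : ℕ → ℕ → ℝ) (hs : Adm z l s) : s 0 r = - s 0 (r + 2) := by
  have hN : 1 ≤ l.length := by omega
  have h1 := count_eq hz l hl hN s hs
  have h2 := count_eq hz l hl hN (flip s (r + 1)) (hs.flip h0)
  have h3 : ∑ p ∈ range l.length, flip s (r + 1) (p + 1) 0 * flip s (r + 1) p 0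
      = ∑ p ∈ range l.length, s (p + 1) 0 * s p 0 := by
    apply sum_congr rfl
    intro p _
    unfold Fisk.flip
    rw [if_neg (by omega), if_neg (by omega)]
  rw [h3, ← h1] at h2
  have h4 : ∑ q ∈ range l.length, (s 0 q * s 0 (q + 1) -
      flip s (r + 1) 0 q * flip s (r + 1) 0 (q + 1)) = 0 := by
    rw [sum_sub_distrib, h2, sub_self]
  have h5 : ∑ q ∈ ({r, r + 1} : Finset ℕ), (s 0 q * s 0 (q + 1) -
      flip s (r + 1) 0 q * flip s (r + 1) 0 (q + 1)) = 0 := by
    rw [← h4]
    apply sum_subset
    · intro x hx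
      simp only [mem_insert, mem_singleton] at hx
      rw [mem_range]; omega
    · intro x _ hx
      simp only [mem_insert, mem_singleton, not_or] at hx
      unfold Fisk.flip
      rw [if_neg (by omega), if_neg (by omega), sub_self]
  rw [sum_insert (by simp), sum_singleton] at h5
  have f1 : flip s (r + 1) 0 r = s 0 r := by
    unfold Fisk.flip; rw [if_neg (by omega)]
  have f2 : flip s (r + 1) 0 (r + 1) = - s 0 (r + 1) := by
    unfold Fisk.flip; rw [if_pos ⟨rfl, rfl⟩]
  have f3 : flip s (r + 1) 0 (r + 1 + 1) = s 0 (r + 2) := by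
    unfold Fisk.flip; rw [if_neg (by omega)]
  rw [f1, f2, f3] at h5
  have e : s 0 (r + 1 + 1) = s 0 (r + 2) := rfl
  rw [e] at h5
  rcases hs.sgn 0 (r + 1) with h | h <;> rw [h] at h5 <;> linarith

/-- **Sturm property** of the first column. -/
theorem sturm_col {z : ℝ} (hz : z < 0) (l : List ℝ) (hl : ∀ x ∈ l, 0 < x)
    (r : ℕ) (hr : r + 2 ≤ l.length) (h0 : PP z l 0 (r + 1) = 0) :
    PP z l 0 r * PP z l 0 (r + 2) < 0 := by
  obtain ⟨s, hs⟩ := exists_adm z l
  have h1 := adm_opp hz l hl r hr h0 s hs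
  have hr0 : PP z l 0 r ≠ 0 := by
    intro h
    have h2 := adm_opp hz l hl r hr h0 _ (hs.flip h)
    have f1 : flip s r 0 r = - s 0 r := by unfold Fisk.flip; rw [if_pos ⟨rfl, rfl⟩]
    have f2 : flip s r 0 (r + 2) = s 0 (r + 2) := by unfold Fisk.flip; rw [if_neg (by omega)]
    rw [f1, f2] at h2
    rcases hs.sgn 0 r with h3 | h3 <;> rw [h3] at h1 h2 <;> linarith
  have hr2 : PP z l 0 (r + 2) ≠ 0 := by
    intro h
    have h2 := adm_opp hz l hl r hr h0 _ (hs.flip h)
    have f1 : flip s (r + 2) 0 r = s 0 r := by unfold Fisk.flip; rw [if_neg (by omega)]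
    have f2 : flip s (r + 2) 0 (r + 2) = - s 0 (r + 2) := by
      unfold Fisk.flip; rw [if_pos ⟨rfl, rfl⟩]
    rw [f1, f2] at h2
    rcases hs.sgn 0 r with h3 | h3 <;> rw [h3] at h1 h2 <;> linarith
  have n1 := hs.nn 0 r
  have n2 := hs.nn 0 (r + 2)
  have e : s 0 (r + 2) = - s 0 r := by rw [h1]; ring
  rw [e] at n2
  rcases hs.sgn 0 r with h3 | h3 <;> rw [h3] at n1 n2
  · have p1 : 0 < PP z l 0 r := lt_of_le_of_ne (by linarith) hr0.symm
    have p2 : PP z l 0 (r + 2) < 0 := lt_of_le_of_ne (by linarith) hr2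
    exact mul_neg_of_pos_of_neg p1 p2
  · have p1 : PP z l 0 r < 0 := lt_of_le_of_ne (by linarith) hr0
    have p2 : 0 < PP z l 0 (r + 2) := lt_of_le_of_ne (by linarith) hr2.symm
    exact mul_neg_of_neg_of_pos p1 p2

open Polynomial

/-- factorization from distinct roots. -/
theorem factor_of_roots (p : ℝ[X]) (n : ℕ) (hdeg : p.natDegree ≤ n) (y : ℕ → ℝ)
    (hinj : ∀ i j, i < j → j < n → y i < y j) (hy : ∀ i < n, p.eval (y i) = 0) :
    p = C (p.coeff n) * ∏ i ∈ range n, (X - C (y i)) := by
  rw [← sub_eq_zero]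
  apply Polynomial.eq_zero_of_degree_lt_of_eval_index_eq_zero (s := range n) (v := y)
  · intro a ha b hb hab
    simp only [coe_range, Set.mem_Iio] at ha hb
    rcases lt_trichotomy a b with h | h | h
    · exact absurd hab (hinj a b h hb).ne
    · exact h
    · exact absurd hab (hinj b a h ha).ne'
  · rw [card_range, Polynomial.degree_lt_iff_coeff_zero]
    intro m hm
    have hmon : (∏ i ∈ range n, (X - C (y i))).Monic := monic_prod_of_monic _ _ (fun i _ => monic_X_sub_C _)
    have hd : (∏ i ∈ range n, (X - C (y i))).natDegree = n := by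
      rw [natDegree_prod_of_monic _ _ (fun i _ => monic_X_sub_C _)]
      simp
    rcases hm.eq_or_lt with h | h
    · rw [← h, coeff_sub, coeff_C_mul]
      have : (∏ i ∈ range n, (X - C (y i))).coeff n = 1 := by
        have := hmon.coeff_natDegree
        rwa [hd] at this
      rw [this]; ring
    · rw [coeff_sub, coeff_C_mul, coeff_eq_zero_of_natDegree_lt (lt_of_le_of_lt hdeg h),
        coeff_eq_zero_of_natDegree_lt (p := ∏ i ∈ range n, (X - C (y i))) (by rw [hd]; exact h)]
      ring
  · intro i hi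
    rw [eval_sub, hy i (mem_range.mp hi), eval_mul, eval_prod,
      prod_eq_zero hi (by simp), mul_zero, sub_zero]

/-- a very negative point where the sign is the expected one. -/
theorem exists_far (p : ℝ[X]) (n : ℕ) (hdeg : p.natDegree ≤ n + 1) (hlead : 0 < p.coeff (n + 1))
    (M : ℝ) : ∃ B, B < M ∧ 0 < (-1 : ℝ) ^ (n + 1) * p.eval B := by
  have hd : p.natDegree = n + 1 := le_antisymm hdeg (le_natDegree_of_ne_zero hlead.ne')
  set R : ℝ[X] := C ((-1 : ℝ) ^ (n + 1)) * p.comp (-X) with hR
  have hRl : R.leadingCoeff = p.coeff (n + 1) := by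
    rw [hR, leadingCoeff_mul, leadingCoeff_C, leadingCoeff_comp (by simp), hd, leadingCoeff_neg,
      leadingCoeff_X, leadingCoeff, hd]
    have : ((-1 : ℝ) ^ (n + 1)) * (-1 : ℝ) ^ (n + 1) = 1 := by rw [← mul_pow]; norm_num
    calc _ = ((-1 : ℝ) ^ (n + 1) * (-1 : ℝ) ^ (n + 1)) * p.coeff (n + 1) := by ring
      _ = _ := by rw [this, one_mul]
  have hRd : 0 < R.degree := by
    have : R.natDegree = n + 1 := by
      rw [hR, natDegree_C_mul (pow_ne_zero _ (by norm_num)), natDegree_comp, hd]
      simp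
    exact natDegree_pos_iff_degree_pos.mp (by omega)
  have ht := Polynomial.tendsto_atTop_of_leadingCoeff_nonneg R hRd (by rw [hRl]; exact hlead.le)
  obtain ⟨x, hx1, hx2⟩ := ((ht.eventually_gt_atTop 0).and (Filter.eventually_gt_atTop (-M))).exists
  refine ⟨-x, by linarith, ?_⟩
  rw [hR, eval_mul, eval_C, eval_comp, eval_neg, eval_X] at hx1
  exact hx1

theorem neg_one_pow_mul_self (n : ℕ) : (-1 : ℝ) ^ n * (-1 : ℝ) ^ n = 1 := by
  rw [← mul_pow]; norm_num

/-- abstract Sturm lemma. -/
theorem sturm_abstract (r : ℕ → ℝ[X]) (N : ℕ) (hdeg : ∀ k ≤ N, (r k).natDegree ≤ k)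
    (hlead : ∀ k ≤ N, 0 < (r k).coeff k) (h0 : ∀ k ≤ N, 0 < (r k).eval 0)
    (hst : ∀ k, k + 2 ≤ N → ∀ z < 0, (r (k + 1)).eval z = 0 →
      (r k).eval z * (r (k + 2)).eval z < 0) :
    ∀ k ≤ N, ∃ ζ : ℕ → ℝ, (∀ i < k, ζ i < 0) ∧ (∀ i j, i < j → j < k → ζ i < ζ j) ∧
      (r k = C ((r k).coeff k) * ∏ i ∈ range k, (X - C (ζ i))) ∧
      (∀ k', k = k' + 1 → ∀ i < k, 0 < (-1 : ℝ) ^ (k' - i) * (r k').eval (ζ i)) := by
  intro k
  induction k with
  | zero =>
    intro hk
    refine ⟨fun _ => 0, fun i hi => absurd hi (Nat.not_lt_zero i),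
      fun i j _ hj => absurd hj (Nat.not_lt_zero j), ?_, fun k' hk' => absurd hk' (by omega)⟩
    rw [range_zero, prod_empty, mul_one]
    exact eq_C_of_natDegree_le_zero (hdeg 0 hk)
  | succ k ih =>
    intro hk
    obtain ⟨ζ, hneg, hmono, hfac, hsgn⟩ := ih (by omega)
    -- signs of r (k+1) at ζ
    have hs1 : ∀ i < k, 0 < (-1 : ℝ) ^ (k - i) * (r (k + 1)).eval (ζ i) := by
      intro i hi
      obtain ⟨k', hk'⟩ : ∃ k', k = k' + 1 := ⟨k - 1, by omega⟩
      have h1 := hsgn k' hk' i hi
      have hz : (r (k' + 1)).eval (ζ i) = 0 := by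
        rw [← hk', hfac, eval_mul, eval_prod, prod_eq_zero (mem_range.mpr hi) (by simp), mul_zero]
      have h2 := hst k' (by omega) (ζ i) (hneg i hi) hz
      have e : r (k + 1) = r (k' + 2) := by rw [hk']
      have e2 : k - i = (k' - i) + 1 := by omega
      rw [e, e2, pow_succ]
      have h3 := neg_one_pow_mul_self (k' - i)
      set a := (-1 : ℝ) ^ (k' - i)
      set u := (r k').eval (ζ i)
      set v := (r (k' + 2)).eval (ζ i)
      -- 0 < a u, u v < 0, a^2 = 1
      by_contra hcon
      have hcon' : 0 ≤ a * v := by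
        have := not_lt.mp hcon
        linarith
      have h5 : 0 ≤ (a * u) * (a * v) := mul_nonneg h1.le hcon'
      have h6 : (a * u) * (a * v) = (a * a) * (u * v) := by ring
      rw [h6, h3, one_mul] at h5
      linarith
    -- nodes
    obtain ⟨B, hB1, hB2⟩ := exists_far (r (k + 1)) k (hdeg (k + 1) hk) (hlead (k + 1) hk)
      (if 0 < k then ζ 0 else 0)
    set t : ℕ → ℝ := fun j => if j = 0 then B else if j ≤ k then ζ (j - 1) else 0 with ht
    have t0 : t 0 = B := by simp [ht]
    have tm : ∀ i < k, t (i + 1) = ζ i := by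
      intro i hi
      simp only [ht]
      rw [if_neg (by omega), if_pos (by omega)]; rfl
    have tl : t (k + 1) = 0 := by
      simp only [ht]
      rw [if_neg (by omega), if_neg (by omega)]
    have tmono : ∀ j ≤ k, t j < t (j + 1) := by
      intro j hj
      rcases Nat.eq_zero_or_pos j with h | h
      · subst h
        rw [t0]
        by_cases hk0 : 0 < k
        · rw [tm 0 hk0]; rw [if_pos hk0] at hB1; exact hB1
        · have hk0' : k = 0 := by omega
          rw [if_neg hk0] at hB1
          have : t (0 + 1) = 0 := by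
            have := tl; rw [hk0'] at this; exact this
          rw [this]; exact hB1
      · obtain ⟨i, hi⟩ : ∃ i, j = i + 1 := ⟨j - 1, by omega⟩
        subst hi
        rw [tm i (by omega)]
        by_cases h2 : i + 1 < k
        · rw [tm (i + 1) h2]; exact hmono i (i + 1) (by omega) h2
        · have : i + 1 = k := by omega
          have e : t (i + 1 + 1) = 0 := by rw [this]; exact tl
          rw [e]; exact hneg i (by omega)
    have tle : ∀ i j, i ≤ j → j ≤ k + 1 → t i ≤ t j := by
      intro i j hij hj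
      induction j, hij using Nat.le_induction with
      | base => exact le_rfl
      | succ j hij ih' => exact (ih' (by omega)).trans (tmono j (by omega)).le
    have tsgn : ∀ j ≤ k + 1, 0 < (-1 : ℝ) ^ (k + 1 - j) * (r (k + 1)).eval (t j) := by
      intro j hj
      rcases Nat.eq_zero_or_pos j with h | h
      · subst h
        rw [t0]; exact hB2
      · obtain ⟨i, hi⟩ : ∃ i, j = i + 1 := ⟨j - 1, by omega⟩
        subst hi
        by_cases h2 : i < k
        · rw [tm i h2]
          have e : k + 1 - (i + 1) = k - i := by omega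
          rw [e]; exact hs1 i h2
        · have e : i + 1 = k + 1 := by omega
          rw [e, tl, Nat.sub_self, pow_zero, one_mul]
          exact h0 (k + 1) hk
    -- zeros
    have hex : ∀ j, ∃ y, j ≤ k → (t j < y ∧ y < t (j + 1) ∧ (r (k + 1)).eval y = 0) := by
      intro j
      by_cases hj : j ≤ k
      · have s1 := tsgn j (by omega)
        have s2 := tsgn (j + 1) (by omega)
        have e : k + 1 - j = (k + 1 - (j + 1)) + 1 := by omega
        rw [e, pow_succ] at s1
        have hc : ContinuousOn (fun x => (r (k + 1)).eval x) (Set.Icc (t j) (t (j + 1))) :=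
          (r (k + 1)).continuous.continuousOn
        rcases Nat.even_or_odd (k + 1 - (j + 1)) with he | ho
        · rw [he.neg_one_pow] at s1 s2
          have := intermediate_value_Ioo (tmono j hj).le hc
          obtain ⟨y, hy, hy0⟩ := this (show (0 : ℝ) ∈ Set.Ioo _ _ from ⟨by linarith, by linarith⟩)
          exact ⟨y, fun _ => ⟨hy.1, hy.2, hy0⟩⟩
        · rw [ho.neg_one_pow] at s1 s2
          have := intermediate_value_Ioo' (tmono j hj).le hc
          obtain ⟨y, hy, hy0⟩ := this (show (0 : ℝ) ∈ Set.Ioo _ _ from ⟨by linarith, by linarith⟩)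
          exact ⟨y, fun _ => ⟨hy.1, hy.2, hy0⟩⟩
      · exact ⟨0, fun h => absurd h hj⟩
    choose y hy using hex
    have ymono : ∀ i j, i < j → j < k + 1 → y i < y j := by
      intro i j hij hj
      have h1 := (hy i (by omega)).2.1
      have h2 := (hy j (by omega)).1
      have h3 := tle (i + 1) j (by omega) (by omega)
      linarith
    refine ⟨y, ?_, ymono, ?_, ?_⟩
    · intro i hi
      have h1 := (hy i (by omega)).2.1
      have h3 := tle (i + 1) (k + 1) (by omega) le_rfl
      rw [tl] at h3
      linarith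
    · exact factor_of_roots (r (k + 1)) (k + 1) (hdeg (k + 1) hk) y ymono
        (fun i hi => (hy i (by omega)).2.2)
    · intro k' hk' i hi
      have hkk : k' = k := by omega
      subst hkk
      rw [hfac, eval_mul, eval_C, eval_prod]
      simp only [eval_sub, eval_X, eval_C]
      -- product over j < k of (y i - ζ j)
      have hprod : 0 < (-1 : ℝ) ^ (k' - i) * ∏ j ∈ range k', (y i - ζ j) := by
        have hsplit : k' = i + (k' - i) := by omega
        have hkey : ∏ j ∈ range k', (y i - ζ j) =
            (∏ j ∈ range i, (y i - ζ j)) * ∏ j ∈ range (k' - i), (y i - ζ (i + j)) := by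
          conv_lhs => rw [hsplit]
          rw [prod_range_add]
        rw [hkey]
        have hp1 : 0 < ∏ j ∈ range i, (y i - ζ j) := by
          apply prod_pos
          intro j hj
          have hj' := mem_range.mp hj
          have h1 := (hy i (by omega)).1
          have h2 := tle (j + 1) i (by omega) (by omega)
          rw [tm j (by omega)] at h2
          linarith
        have hp2 : (-1 : ℝ) ^ (k' - i) * ∏ j ∈ range (k' - i), (y i - ζ (i + j)) =
            ∏ j ∈ range (k' - i), (ζ (i + j) - y i) := by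
          have hc : (-1 : ℝ) ^ (k' - i) = ∏ _j ∈ range (k' - i), (-1 : ℝ) := by
            rw [prod_const, card_range]
          rw [hc, ← prod_mul_distrib]
          apply prod_congr rfl
          intro j _
          ring
        have hp3 : 0 < ∏ j ∈ range (k' - i), (ζ (i + j) - y i) := by
          apply prod_pos
          intro j hj
          have hj' := mem_range.mp hj
          have h1 := (hy i (by omega)).2.1
          have h2 := tle (i + 1) (i + j + 1) (by omega) (by omega)
          rw [tm (i + j) (by omega)] at h2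
          linarith
        rw [← hp2] at hp3
        calc 0 < (∏ j ∈ range i, (y i - ζ j)) *
              ((-1 : ℝ) ^ (k' - i) * ∏ j ∈ range (k' - i), (y i - ζ (i + j))) := mul_pos hp1 hp3
          _ = _ := by ring
      have hl := hlead k' (by omega)
      calc 0 < (r k').coeff k' * ((-1 : ℝ) ^ (k' - i) * ∏ j ∈ range k', (y i - ζ j)) :=
            mul_pos hl hprod
        _ = _ := by ring

end Pool.Agent.Lib_helper20.Fisk
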