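import Pool.Agent.Lib_helper20.FiskVD

/-!
# Coefficients of `∏ (1 + x_i t)` and their 2x2 minors
-/

set_option autoImplicit false

namespace Pool.Agent.Lib_helper20.Fisk

open Finset

/-- coefficient sequence (indexed by `ℤ`) of `∏_{x ∈ l} (1 + x t)`. -/
noncomputable def Fc : List ℝ → ℤ → ℝ
  | [], k => if k = 0 then 1 else 0
  | x :: l, k => Fc l k + x * Fc l (k - 1)

theorem Fc_neg (l : List ℝ) : ∀ k : ℤ, k < 0 → Fc l k = 0 := by
  induction l with
  | nil => intro k hk; simp [Fc, hk.ne]
  | cons x l ih => intro k hk; simp only [Fc]; rw [ih k hk, ih (k - 1) (by linarith)]; ring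

theorem Fc_gt (l : List ℝ) : ∀ k : ℤ, (l.length : ℤ) < k → Fc l k = 0 := by
  induction l with
  | nil => intro k hk; simp only [List.length_nil, Nat.cast_zero] at hk; simp [Fc, hk.ne']
  | cons x l ih =>
    intro k hk
    simp only [List.length_cons, Nat.cast_add, Nat.cast_one] at hk
    simp only [Fc]
    rw [ih k (by linarith), ih (k - 1) (by linarith)]; ring

theorem Fc_nonneg (l : List ℝ) (hl : ∀ x ∈ l, 0 < x) : ∀ k : ℤ, 0 ≤ Fc l k := by
  induction l with
  | nil => intro k; simp only [Fc]; split_ifs <;> norm_num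
  | cons x l ih =>
    intro k
    have ih' := ih (fun y hy => hl y (List.mem_cons_of_mem _ hy))
    have hx := hl x List.mem_cons_self
    simp only [Fc]
    have := mul_nonneg hx.le (ih' (k - 1))
    linarith [ih' k]

theorem Fc_pos (l : List ℝ) (hl : ∀ x ∈ l, 0 < x) :
    ∀ k : ℤ, 0 ≤ k → k ≤ l.length → 0 < Fc l k := by
  induction l with
  | nil =>
    intro k h0 h1
    simp only [List.length_nil, Nat.cast_zero] at h1
    have : k = 0 := le_antisymm h1 h0
    simp [Fc, this]
  | cons x l ih =>
    intro k h0 h1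
    have hl' : ∀ y ∈ l, 0 < y := fun y hy => hl y (List.mem_cons_of_mem _ hy)
    have ih' := ih hl'
    have hx := hl x List.mem_cons_self
    simp only [List.length_cons, Nat.cast_add, Nat.cast_one] at h1
    simp only [Fc]
    by_cases hk : k ≤ l.length
    · have h2 := ih' k h0 hk
      have h3 := mul_nonneg hx.le (Fc_nonneg l hl' (k - 1))
      linarith
    · have hk' : k - 1 = l.length := by omega
      have h2 := ih' (k - 1) (by omega) (by omega)
      have h3 := mul_pos hx h2
      linarith [Fc_nonneg l hl' k]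

/-- 2x2 minors of rows `0, b` and columns `p, q`. -/
noncomputable def Mn (l : List ℝ) (b p q : ℤ) : ℝ :=
  Fc l p * Fc l (q - b) - Fc l q * Fc l (p - b)

theorem Mn_cons (x : ℝ) (l : List ℝ) (b p q : ℤ) :
    Mn (x :: l) b p q = Mn l b p q + x * (Mn l b p (q - 1) + Mn l b (p - 1) q)
      + x ^ 2 * Mn l b (p - 1) (q - 1) := by
  simp only [Mn, Fc]
  have e1 : q - b - 1 = q - 1 - b := by ring
  have e2 : p - b - 1 = p - 1 - b := by ring
  rw [e1, e2]
  ring

theorem Mn_self (l : List ℝ) (b p : ℤ) : Mn l b p p = 0 := by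
  simp only [Mn]; ring

theorem Mn_nonneg (l : List ℝ) (hl : ∀ x ∈ l, 0 < x) (b : ℤ) (hb : 1 ≤ b) :
    ∀ p q : ℤ, p ≤ q → 0 ≤ Mn l b p q := by
  induction l with
  | nil =>
    intro p q hpq
    simp only [Mn, Fc]
    by_cases h1 : q = 0
    · by_cases h2 : p - b = 0
      · omega
      · rw [if_neg h2]; simp only [mul_zero, sub_zero]; split_ifs <;> norm_num
    · rw [if_neg h1]; simp only [zero_mul, sub_zero]; split_ifs <;> norm_num
  | cons x l ih =>
    intro p q hpq
    have hl' : ∀ y ∈ l, 0 < y := fun y hy => hl y (List.mem_cons_of_mem _ hy)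
    have ih' := ih hl'
    have hx := hl x List.mem_cons_self
    rcases hpq.eq_or_lt with h | h
    · rw [h, Mn_self]
    · rw [Mn_cons]
      have h1 := ih' p q hpq
      have h2 := ih' p (q - 1) (by omega)
      have h3 := ih' (p - 1) q (by omega)
      have h4 := ih' (p - 1) (q - 1) (by omega)
      positivity

theorem Mn_pos (l : List ℝ) (hl : ∀ x ∈ l, 0 < x) (b : ℤ) (hb : 1 ≤ b) :
    ∀ p q : ℤ, p < q → 0 ≤ p → p ≤ l.length → b ≤ q → q ≤ l.length + b → 0 < Mn l b p q := by
  induction l with
  | nil =>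
    intro p q hpq h1 h2 h3 h4
    simp only [List.length_nil, Nat.cast_zero, zero_add] at h2 h4
    have hp : p = 0 := by omega
    have hq : q = b := by omega
    subst hp; subst hq
    have hb0 : q ≠ 0 := by omega
    simp [Mn, Fc, hb0]
  | cons x l ih =>
    intro p q hpq h1 h2 h3 h4
    have hl' : ∀ y ∈ l, 0 < y := fun y hy => hl y (List.mem_cons_of_mem _ hy)
    have ih' := ih hl'
    have hx := hl x List.mem_cons_self
    simp only [List.length_cons, Nat.cast_add, Nat.cast_one] at h2 h4
    have n1 := Mn_nonneg l hl' b hb p q hpq.le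
    have n2 := Mn_nonneg l hl' b hb p (q - 1) (by omega)
    have n3 := Mn_nonneg l hl' b hb (p - 1) q (by omega)
    have n4 := Mn_nonneg l hl' b hb (p - 1) (q - 1) (by omega)
    rw [Mn_cons]
    by_cases hp : p ≤ l.length
    · by_cases hq : q ≤ l.length + b
      · have := ih' p q hpq h1 hp h3 hq
        positivity
      · have := ih' p (q - 1) (by omega) h1 hp (by omega) (by omega)
        positivity
    · by_cases hq : q ≤ l.length + b
      · have := ih' (p - 1) q (by omega) (by omega) (by omega) h3 hq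
        positivity
      · have := ih' (p - 1) (q - 1) (by omega) (by omega) (by omega) (by omega) (by omega)
        positivity

end Pool.Agent.Lib_helper20.Fisk
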