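import Mathlib

/-!
# Variation diminishing for sign sequences (part of the proof of Fisk's 3x3 conjecture)
-/

set_option autoImplicit false

namespace Pool.Agent.Lib_helper20.Fisk

open Finset

/-- `τ` takes only the values `1` and `-1`. -/
def IsSign (τ : ℤ → ℝ) : Prop := ∀ n, τ n = 1 ∨ τ n = -1

/-- the signs `τ` are (weakly) the signs of `v`. -/
def Compat (τ v : ℤ → ℝ) : Prop := ∀ n, 0 ≤ τ n * v n

/-- `v` lives exactly on `[lo, lo + L]` and every compatible sign sequence has
`∑ τ τ⁺ ≥ c` there. -/
structure Q (v : ℤ → ℝ) (lo : ℤ) (L : ℕ) (c : ℝ) : Prop where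
  hlo : v lo ≠ 0
  hhi : v (lo + L) ≠ 0
  left : ∀ n, n < lo → v n = 0
  right : ∀ n, lo + L < n → v n = 0
  sum : ∀ τ : ℤ → ℝ, IsSign τ → Compat τ v →
    c ≤ ∑ k ∈ range L, τ (lo + k) * τ (lo + k + 1)

theorem Q.step {v : ℤ → ℝ} {lo : ℤ} {L : ℕ} {c : ℝ} (h : Q v lo L c) {y : ℝ} (hy : 0 < y) :
    Q (fun n => v n + y * v (n + 1)) (lo - 1) (L + 1) (c + 1) := by
  have e1 : lo - 1 + 1 = lo := by ring
  have e2 : lo - 1 + ((L + 1 : ℕ) : ℤ) = lo + L := by push_cast; ring
  refine ⟨?_, ?_, ?_, ?_, ?_⟩
  · show v (lo - 1) + y * v (lo - 1 + 1) ≠ 0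
    rw [e1, h.left (lo - 1) (by linarith), zero_add]
    exact mul_ne_zero hy.ne' h.hlo
  · show v (lo - 1 + ((L + 1 : ℕ) : ℤ)) + y * v (lo - 1 + ((L + 1 : ℕ) : ℤ) + 1) ≠ 0
    rw [e2, h.right (lo + L + 1) (by linarith), mul_zero, add_zero]
    exact h.hhi
  · intro n hn
    show v n + y * v (n + 1) = 0
    rw [h.left n (by linarith), h.left (n + 1) (by linarith)]; ring
  · intro n hn
    rw [e2] at hn
    show v n + y * v (n + 1) = 0
    rw [h.right n (by linarith), h.right (n + 1) (by linarith)]; ring
  · intro τ hτ hc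
    classical
    set τ' : ℤ → ℝ := fun n => if v n = 0 then τ n else if 0 < v n then 1 else -1 with hτ'
    have hs : IsSign τ' := by
      intro n
      simp only [hτ']
      split_ifs
      · exact hτ n
      · exact Or.inl rfl
      · exact Or.inr rfl
    have hcomp : Compat τ' v := by
      intro n
      simp only [hτ']
      split_ifs with h1 h2
      · rw [h1]; simp
      · rw [one_mul]; exact h2.le
      · have : v n < 0 := lt_of_le_of_ne (not_lt.mp h2) h1
        linarith
    have hw : ∀ n, 0 ≤ τ n * (v n + y * v (n + 1)) := hc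
    -- the key local fact
    have key : ∀ n, τ' n * τ n + τ n * τ' (n + 1) = 1 + τ' n * τ' (n + 1) := by
      intro n
      have hor : τ n = τ' n ∨ τ n = τ' (n + 1) := by
        by_cases hv : v n = 0
        · left; simp [hτ', hv]
        · by_cases heq : τ' n = τ' (n + 1)
          · left
            have hwn := hw n
            have hc1 := hcomp n
            have hc2 := hcomp (n + 1)
            rw [← heq] at hc2
            have hpos : 0 < τ' n * v n := lt_of_le_of_ne hc1 (by
              intro h0
              rcases mul_eq_zero.mp h0.symm with h' | h'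
              · rcases hs n with h'' | h'' <;> rw [h''] at h' <;> norm_num at h'
              · exact hv h')
            rcases hτ n with ht | ht <;> rcases hs n with ht' | ht' <;> rw [ht'] at hpos hc2 <;>
              rw [ht] at hwn <;> rw [ht, ht']
            · exfalso
              nlinarith [mul_nonneg hy.le (show 0 ≤ - v (n+1) by linarith)]
            · exfalso
              nlinarith [mul_nonneg hy.le (show 0 ≤ v (n+1) by linarith)]
          · rcases hs n with h1 | h1 <;> rcases hs (n + 1) with h2 | h2 <;>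
              rcases hτ n with h3 | h3 <;> rw [h1, h2, h3] <;> norm_num
            · exact heq (by rw [h1, h2])
            · exact heq (by rw [h1, h2])
      have sq1 : τ' n * τ' n = 1 := by rcases hs n with h1 | h1 <;> rw [h1] <;> norm_num
      have sq2 : τ' (n+1) * τ' (n+1) = 1 := by
        rcases hs (n+1) with h1 | h1 <;> rw [h1] <;> norm_num
      rcases hor with h1 | h1 <;> rw [h1]
      · linarith
      · linarith
    -- inequality for consecutive pairs
    have pair : ∀ n, τ' n * τ' (n + 1) + (τ' (n + 1) * τ (n + 1) - τ' n * τ n)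
        ≤ τ n * τ (n + 1) := by
      intro n
      have hk := key n
      rcases hs (n + 1) with h2 | h2 <;>
        rcases hτ n with h3 | h3 <;> rcases hτ (n + 1) with h4 | h4 <;>
        rw [h2, h3] at hk <;> rw [h2, h3, h4] <;> linarith
    have hsum := h.sum τ' hs hcomp
    rw [sum_range_succ']
    have hfirst : τ (lo - 1 + ((0 : ℕ) : ℤ)) * τ (lo - 1 + ((0 : ℕ) : ℤ) + 1) = τ' lo * τ lo := by
      have : τ (lo - 1) = τ' lo := by
        have hwn := hw (lo - 1)
        rw [e1, h.left (lo - 1) (by linarith), zero_add] at hwn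
        have hc1 := hcomp lo
        have hpos : 0 < τ' lo * v lo := lt_of_le_of_ne hc1 (by
              intro h0
              rcases mul_eq_zero.mp h0.symm with h' | h'
              · rcases hs lo with h'' | h'' <;> rw [h''] at h' <;> norm_num at h'
              · exact h.hlo h')
        rcases hτ (lo - 1) with ht | ht <;> rcases hs lo with ht' | ht' <;> rw [ht'] at hpos <;>
              rw [ht] at hwn <;> rw [ht, ht']
        · exfalso
          nlinarith [mul_pos hy (show 0 < - v lo by linarith)]
        · exfalso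
          nlinarith [mul_pos hy (show 0 < v lo by linarith)]
      simp only [Nat.cast_zero, add_zero]
      rw [e1, this]
    have hlast : τ' (lo + L) * τ (lo + L) = 1 := by
      have hwn := hw (lo + L)
      rw [h.right (lo + L + 1) (by linarith), mul_zero, add_zero] at hwn
      have hc1 := hcomp (lo + L)
      have hpos : 0 < τ' (lo + L) * v (lo + L) := lt_of_le_of_ne hc1 (by
              intro h0
              rcases mul_eq_zero.mp h0.symm with h' | h'
              · rcases hs (lo + L) with h'' | h'' <;> rw [h''] at h' <;> norm_num at h'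
              · exact h.hhi h')
      rcases hτ (lo + L) with ht | ht <;> rcases hs (lo + L) with ht' | ht' <;> rw [ht'] at hpos <;>
              rw [ht] at hwn <;> rw [ht, ht'] <;> norm_num
      · linarith
      · linarith
    rw [hfirst]
    have hrest : ∑ k ∈ range L, (τ' (lo + k) * τ' (lo + k + 1) +
        (τ' (lo + k + 1) * τ (lo + k + 1) - τ' (lo + k) * τ (lo + k)))
        ≤ ∑ k ∈ range L, τ (lo - 1 + ((k + 1 : ℕ) : ℤ)) * τ (lo - 1 + ((k + 1 : ℕ) : ℤ) + 1) := by
      apply sum_le_sum
      intro k _
      have e3 : lo - 1 + ((k + 1 : ℕ) : ℤ) = lo + k := by push_cast; ring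
      rw [e3]
      exact pair (lo + k)
    have htel : ∑ k ∈ range L, (τ' (lo + k + 1) * τ (lo + k + 1) - τ' (lo + k) * τ (lo + k))
        = τ' (lo + L) * τ (lo + L) - τ' lo * τ lo := by
      have := Finset.sum_range_sub (fun k : ℕ => τ' (lo + k) * τ (lo + k)) L
      simp only [Nat.cast_add, Nat.cast_one, Nat.cast_zero, add_zero] at this
      rw [← this]
      apply sum_congr rfl
      intro k _
      rw [add_assoc]
    rw [sum_add_distrib, htel, hlast] at hrest
    linarith

/-- a strictly alternating sequence. -/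
theorem Q.base {v : ℤ → ℝ} {lo : ℤ} {L : ℕ}
    (hpos : ∀ n, lo ≤ n → n ≤ lo + L → 0 < (-1 : ℝ) ^ n * v n)
    (hleft : ∀ n, n < lo → v n = 0) (hright : ∀ n, lo + L < n → v n = 0) :
    Q v lo L (-(L : ℝ)) := by
  have hne : ∀ n, lo ≤ n → n ≤ lo + L → v n ≠ 0 := by
    intro n h1 h2 h0
    have := hpos n h1 h2
    rw [h0, mul_zero] at this
    exact lt_irrefl _ this
  refine ⟨hne lo le_rfl (by linarith [Int.natCast_nonneg L]), hne _ (by linarith [Int.natCast_nonneg L]) le_rfl, hleft, hright, ?_⟩
  intro τ hτ hc
  have hval : ∀ n, lo ≤ n → n ≤ lo + L → τ n = (-1 : ℝ) ^ n := by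
    intro n h1 h2
    have h3 := hpos n h1 h2
    have h4 := hc n
    rcases Int.even_or_odd n with he | ho
    · rw [he.neg_one_zpow] at h3 ⊢
      rcases hτ n with ht | ht
      · exact ht
      · rw [ht] at h4; exfalso; linarith
    · rw [ho.neg_one_zpow] at h3 ⊢
      rcases hτ n with ht | ht
      · rw [ht] at h4; exfalso; linarith
      · exact ht
  have : ∑ k ∈ range L, τ (lo + k) * τ (lo + k + 1) = ∑ k ∈ range L, (-1 : ℝ) := by
    apply sum_congr rfl
    intro k hk
    have hk' : (k : ℤ) + 1 ≤ L := by exact_mod_cast mem_range.mp hk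
    rw [hval (lo + k) (by linarith [Int.natCast_nonneg k]) (by linarith),
      hval (lo + k + 1) (by linarith [Int.natCast_nonneg k]) (by linarith)]
    rw [zpow_add_one₀ (by norm_num)]
    rcases Int.even_or_odd (lo + k) with he | ho
    · rw [he.neg_one_zpow]; norm_num
    · rw [ho.neg_one_zpow]; norm_num
  rw [this]
  simp

end Pool.Agent.Lib_helper20.Fisk
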